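import Pool.Agent.H59.L.S8.H212R2.KLS.Defs
import Pool.Agent.H59.L.S8.PZ871.Pl

/-!
# T1: the Prekopa-Leindler inequality for every weight and every Haar measure
-/

set_option autoImplicit false

namespace Pool.Agent.H212R2.KLS

open MeasureTheory Set Filter Topology
open scoped ENNReal NNReal

namespace PLt

theorem vol_homothety (s c : ℝ) (hs : 0 ≤ s) (K : Set ℝ) :
    volume ((fun x => s * x + c) '' K) = ENNReal.ofReal s * volume K := by
  have h1 : (fun x => s * x + c) '' K = (fun x => x + c) '' ((fun x => s * x) '' K) := by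
    rw [image_image]
  rw [h1]
  have e1 : volume ((fun x : ℝ => x + c) '' ((fun x => s * x) '' K))
      = volume ((fun x => s * x) '' K) := by
    simp
  rw [e1]
  have e2 := Measure.addHaar_image_homothety (volume : Measure ℝ) (0 : ℝ) s K
  have e3 : (fun x => s * x) '' K = (AffineMap.homothety (0 : ℝ) s) '' K := by
    congr 1
    ext x
    simp [AffineMap.homothety_apply]
  rw [e3, e2]
  simp [abs_of_nonneg hs]

theorem bm_compact {K L C : Set ℝ} (t : ℝ) (ht0 : 0 < t) (ht1 : t < 1)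
    (hK : IsCompact K) (hL : IsCompact L)
    (hK' : K.Nonempty) (hL' : L.Nonempty)
    (hC : ∀ x ∈ K, ∀ y ∈ L, (1 - t) * x + t * y ∈ C) :
    ENNReal.ofReal (1 - t) * volume K + ENNReal.ofReal t * volume L ≤ volume C := by
  obtain ⟨a, ha, hamax⟩ := hK.exists_isMaxOn hK' continuousOn_id
  obtain ⟨b, hb, hbmin⟩ := hL.exists_isMinOn hL' continuousOn_id
  have hamax' : ∀ x ∈ K, x ≤ a := fun x hx => hamax hx
  have hbmin' : ∀ y ∈ L, b ≤ y := fun y hy => hbmin hy
  set S1 : Set ℝ := (fun x => (1 - t) * x + t * b) '' K with hS1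
  set S2 : Set ℝ := (fun y => t * y + (1 - t) * a) '' L with hS2
  have hS1c : IsCompact S1 := hK.image (by fun_prop)
  have hS2c : IsCompact S2 := hL.image (by fun_prop)
  have h1 : S1 ∪ S2 ⊆ C := by
    rintro z (⟨x, hx, rfl⟩ | ⟨y, hy, rfl⟩)
    · exact hC x hx b hb
    · have := hC a ha y hy
      rw [add_comm] at this
      exact this
  have hint : volume (S1 ∩ S2) = 0 := by
    refine measure_mono_null (t := {(1 - t) * a + t * b}) ?_ (by simp)
    rintro z ⟨⟨x, hx, hxz⟩, ⟨y, hy, hyz⟩⟩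
    simp only at hxz hyz
    have e1 := hamax' x hx
    have e2 := hbmin' y hy
    simp only [mem_singleton_iff]
    have h3 : (1 - t) * x ≤ (1 - t) * a := by
      apply mul_le_mul_of_nonneg_left e1; linarith
    have h4 : t * b ≤ t * y := by
      apply mul_le_mul_of_nonneg_left e2; linarith
    linarith
  have hv1 : volume S1 = ENNReal.ofReal (1 - t) * volume K :=
    vol_homothety (1 - t) (t * b) (by linarith) K
  have hv2 : volume S2 = ENNReal.ofReal t * volume L :=
    vol_homothety t ((1 - t) * a) ht0.le L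
  have hu : volume (S1 ∪ S2) + volume (S1 ∩ S2) = volume S1 + volume S2 :=
    measure_union_add_inter S1 hS2c.measurableSet
  rw [hint, add_zero] at hu
  rw [← hv1, ← hv2, ← hu]
  exact measure_mono h1

theorem bm {A B C : Set ℝ} (t : ℝ) (ht0 : 0 < t) (ht1 : t < 1)
    (hA : MeasurableSet A) (hB : MeasurableSet B)
    (hA' : A.Nonempty) (hB' : B.Nonempty)
    (hC : ∀ x ∈ A, ∀ y ∈ B, (1 - t) * x + t * y ∈ C) :
    ENNReal.ofReal (1 - t) * volume A + ENNReal.ofReal t * volume B ≤ volume C := by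
  obtain ⟨a, ha⟩ := hA'
  obtain ⟨b, hb⟩ := hB'
  have key : ∀ K, K ⊆ A → IsCompact K → ∀ L, L ⊆ B → IsCompact L →
      ENNReal.ofReal (1 - t) * volume K + ENNReal.ofReal t * volume L ≤ volume C := by
    intro K hKA hK L hLB hL
    have h := bm_compact (K := insert a K) (L := insert b L) (C := C) t ht0 ht1
      (hK.insert a) (hL.insert b)
      (insert_nonempty _ _) (insert_nonempty _ _) (fun x hx y hy => hC x (insert_subset ha hKA hx) y
        (insert_subset hb hLB hy))
    refine le_trans ?_ h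
    gcongr
    · exact subset_insert _ _
    · exact subset_insert _ _
  rw [hA.measure_eq_iSup_isCompact, hB.measure_eq_iSup_isCompact]
  simp only [iSup_and', ENNReal.mul_iSup]
  refine ENNReal.biSup_add_biSup_le' ⟨∅, empty_subset _, isCompact_empty⟩
    ⟨∅, empty_subset _, isCompact_empty⟩ ?_
  rintro K ⟨hKA, hK⟩ L ⟨hLB, hL⟩
  exact key K hKA hK L hLB hL

/-- one-dimensional case, normalised -/
theorem pl1_aux (t : ℝ) (ht0 : 0 < t) (ht1 : t < 1)
    (f g h : ℝ → ℝ) (hf : Measurable f) (hg : Measurable g) (hh : Measurable h)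
    (f0 : ∀ x, 0 ≤ f x) (g0 : ∀ x, 0 ≤ g x) (h0 : ∀ x, 0 ≤ h x)
    (f1 : ∀ x, f x ≤ 1) (g1 : ∀ x, g x ≤ 1)
    (hfs : ∀ s, s < 1 → ∃ x, s < f x) (hgs : ∀ s, s < 1 → ∃ x, s < g x)
    (H : ∀ x y, f x ^ (1 - t) * g y ^ t ≤ h ((1 - t) * x + t * y)) :
    ENNReal.ofReal (1 - t) * (∫⁻ x, ENNReal.ofReal (f x)) +
      ENNReal.ofReal t * (∫⁻ x, ENNReal.ofReal (g x))
      ≤ ∫⁻ x, ENNReal.ofReal (h x) := by
  rw [lintegral_eq_lintegral_meas_lt volume (Filter.Eventually.of_forall f0) hf.aemeasurable,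
    lintegral_eq_lintegral_meas_lt volume (Filter.Eventually.of_forall g0) hg.aemeasurable,
    lintegral_eq_lintegral_meas_lt volume (Filter.Eventually.of_forall h0) hh.aemeasurable]
  have hm : ∀ k : ℝ → ℝ, Measurable (fun s : ℝ => volume {a : ℝ | s < k a}) := fun k =>
    (Antitone.measurable (fun s t hst => measure_mono (fun a (ha : t < k a) =>
      show s < k a from lt_of_le_of_lt hst ha)))
  rw [← lintegral_const_mul _ (hm f), ← lintegral_const_mul _ (hm g),
    ← lintegral_add_left ((hm f).const_mul _)]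
  refine setLIntegral_mono' measurableSet_Ioi ?_
  intro s hs
  have hs0 : 0 < s := hs
  by_cases hs1 : s < 1
  · refine bm t ht0 ht1 (hf measurableSet_Ioi) (hg measurableSet_Ioi) (hfs s hs1) (hgs s hs1) ?_
    intro x hx y hy
    have hx' : s < f x := hx
    have hy' : s < g y := hy
    have hxy := H x y
    have h2 : s < h ((1 - t) * x + t * y) := by
      calc s = s ^ (1 - t) * s ^ t := by
            rw [← Real.rpow_add hs0]; simp
        _ < f x ^ (1 - t) * g y ^ t := by
          apply mul_lt_mul''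
          · exact Real.rpow_lt_rpow hs0.le hx' (by linarith)
          · exact Real.rpow_lt_rpow hs0.le hy' ht0
          · positivity
          · positivity
        _ ≤ _ := hxy
    exact h2
  · push Not at hs1
    have e1 : {a : ℝ | s < f a} = ∅ := by
      ext a; simp; linarith [f1 a]
    have e2 : {a : ℝ | s < g a} = ∅ := by
      ext a; simp; linarith [g1 a]
    simp [e1, e2]

theorem pl1_bdd (t : ℝ) (ht0 : 0 < t) (ht1 : t < 1)
    (F G H : ℝ → ℝ≥0∞) (hF : Measurable F) (hG : Measurable G) (hH : Measurable H)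
    (k : ℝ≥0∞) (hk : k ≠ ∞) (Fk : ∀ x, F x ≤ k) (Gk : ∀ x, G x ≤ k)
    (HH : ∀ x y, F x ^ (1 - t) * G y ^ t ≤ H ((1 - t) * x + t * y)) :
    (∫⁻ x, F x) ^ (1 - t) * (∫⁻ x, G x) ^ t ≤ ∫⁻ x, H x := by
  have t1 : 0 < 1 - t := by linarith
  by_cases hM0 : (⨆ x, F x) = 0
  · have : ∀ x, F x = 0 := by simpa using hM0
    simp [this, t1]
  by_cases hN0 : (⨆ x, G x) = 0
  · have : ∀ x, G x = 0 := by simpa using hN0
    simp [this, ht0]
  set M := ⨆ x, F x with hM
  set N := ⨆ x, G x with hN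
  have hMk : M ≤ k := iSup_le Fk
  have hNk : N ≤ k := iSup_le Gk
  have hMt : M ≠ ∞ := ne_top_of_le_ne_top hk hMk
  have hNt : N ≠ ∞ := ne_top_of_le_ne_top hk hNk
  by_cases hC : (∫⁻ x, H x) = ∞
  · rw [hC]; simp
  set m := M.toReal with hm
  set n := N.toReal with hn
  have mpos : 0 < m := ENNReal.toReal_pos hM0 hMt
  have npos : 0 < n := ENNReal.toReal_pos hN0 hNt
  have hFt : ∀ x, F x ≠ ∞ := fun x => ne_top_of_le_ne_top hk (Fk x)
  have hGt : ∀ x, G x ≠ ∞ := fun x => ne_top_of_le_ne_top hk (Gk x)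
  set r : ℝ := m ^ (1 - t) * n ^ t with hr
  have rpos : 0 < r := by positivity
  set f : ℝ → ℝ := fun x => m⁻¹ * (F x).toReal with hf
  set g : ℝ → ℝ := fun x => n⁻¹ * (G x).toReal with hg
  set h' : ℝ → ℝ≥0∞ := fun x => min (ENNReal.ofReal r⁻¹ * H x) 1 with hh'
  set h : ℝ → ℝ := fun x => (h' x).toReal with hh
  have h't : ∀ x, h' x ≠ ∞ := fun x => ne_top_of_le_ne_top ENNReal.one_ne_top (min_le_right _ _)
  have f0 : ∀ x, 0 ≤ f x := fun x => by positivity
  have g0 : ∀ x, 0 ≤ g x := fun x => by positivity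
  have h0 : ∀ x, 0 ≤ h x := fun x => ENNReal.toReal_nonneg
  have FM : ∀ x, (F x).toReal ≤ m := fun x => ENNReal.toReal_mono hMt (le_iSup F x)
  have GN : ∀ x, (G x).toReal ≤ n := fun x => ENNReal.toReal_mono hNt (le_iSup G x)
  have f1 : ∀ x, f x ≤ 1 := fun x => by
    have := FM x
    simp only [hf]
    rw [inv_mul_le_iff₀ mpos]; linarith
  have g1 : ∀ x, g x ≤ 1 := fun x => by
    have := GN x
    simp only [hg]
    rw [inv_mul_le_iff₀ npos]; linarith
  have hfs : ∀ s, s < 1 → ∃ x, s < f x := by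
    intro s hs
    by_cases hs0 : s < 0
    · exact ⟨0, lt_of_lt_of_le hs0 (f0 0)⟩
    push Not at hs0
    have h1 : ENNReal.ofReal (s * m) < M := by
      rw [ENNReal.ofReal_lt_iff_lt_toReal (by positivity) hMt]
      nlinarith
    obtain ⟨x, hx⟩ := lt_iSup_iff.mp h1
    refine ⟨x, ?_⟩
    rw [ENNReal.ofReal_lt_iff_lt_toReal (by positivity) (hFt x)] at hx
    simp only [hf]
    rw [lt_inv_mul_iff₀ mpos]; linarith
  have hgs : ∀ s, s < 1 → ∃ x, s < g x := by
    intro s hs
    by_cases hs0 : s < 0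
    · exact ⟨0, lt_of_lt_of_le hs0 (g0 0)⟩
    push Not at hs0
    have h1 : ENNReal.ofReal (s * n) < N := by
      rw [ENNReal.ofReal_lt_iff_lt_toReal (by positivity) hNt]
      nlinarith
    obtain ⟨x, hx⟩ := lt_iSup_iff.mp h1
    refine ⟨x, ?_⟩
    rw [ENNReal.ofReal_lt_iff_lt_toReal (by positivity) (hGt x)] at hx
    simp only [hg]
    rw [lt_inv_mul_iff₀ npos]; linarith
  have H1 : ∀ x y, f x ^ (1 - t) * g y ^ t ≤ h ((1 - t) * x + t * y) := by
    intro x y
    simp only [hh, hh']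
    rcases le_total (ENNReal.ofReal r⁻¹ * H ((1 - t) * x + t * y)) 1 with hle | hle
    · rw [min_eq_left hle]
      have hHt : H ((1 - t) * x + t * y) ≠ ∞ := by
        intro hinf
        rw [hinf, ENNReal.mul_top (by simpa using rpos)] at hle
        simp at hle
      rw [ENNReal.toReal_mul, ENNReal.toReal_ofReal (by positivity)]
      have h2 := ENNReal.toReal_mono hHt (HH x y)
      rw [ENNReal.toReal_mul, ← ENNReal.toReal_rpow, ← ENNReal.toReal_rpow] at h2
      simp only [hf, hg]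
      rw [Real.mul_rpow (by positivity) (by positivity), Real.mul_rpow (by positivity)
        (by positivity), Real.inv_rpow mpos.le, Real.inv_rpow npos.le]
      calc (m ^ (1 - t))⁻¹ * (F x).toReal ^ (1 - t) * ((n ^ t)⁻¹ * (G y).toReal ^ t)
          = r⁻¹ * ((F x).toReal ^ (1 - t) * (G y).toReal ^ t) := by rw [hr, mul_inv]; ring
        _ ≤ _ := by gcongr
    · rw [min_eq_right hle]
      simp only [ENNReal.toReal_one]
      exact mul_le_one₀ (Real.rpow_le_one (f0 x) (f1 x) t1.le) (by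
        exact Real.rpow_nonneg (g0 y) t) (Real.rpow_le_one (g0 y) (g1 y) ht0.le)
  have hfm : Measurable f := (hF.ennreal_toReal).const_mul _
  have hgm : Measurable g := (hG.ennreal_toReal).const_mul _
  have hhm : Measurable h := ((hH.const_mul _).min measurable_const).ennreal_toReal
  have main := pl1_aux t ht0 ht1 f g h hfm hgm hhm f0 g0 h0 f1 g1 hfs hgs H1
  have e1 : (∫⁻ x, ENNReal.ofReal (f x)) = ENNReal.ofReal m⁻¹ * ∫⁻ x, F x := by
    rw [← lintegral_const_mul _ hF]
    refine lintegral_congr (fun x => ?_)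
    simp only [hf]
    rw [ENNReal.ofReal_mul (by positivity), ENNReal.ofReal_toReal (hFt x)]
  have e2 : (∫⁻ x, ENNReal.ofReal (g x)) = ENNReal.ofReal n⁻¹ * ∫⁻ x, G x := by
    rw [← lintegral_const_mul _ hG]
    refine lintegral_congr (fun x => ?_)
    simp only [hg]
    rw [ENNReal.ofReal_mul (by positivity), ENNReal.ofReal_toReal (hGt x)]
  have e3 : (∫⁻ x, ENNReal.ofReal (h x)) ≤ ENNReal.ofReal r⁻¹ * ∫⁻ x, H x := by
    rw [← lintegral_const_mul _ hH]
    refine lintegral_mono (fun x => ?_)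
    simp only [hh]
    rw [ENNReal.ofReal_toReal (h't x)]
    exact min_le_left _ _
  have main2 : ENNReal.ofReal (1 - t) * (ENNReal.ofReal m⁻¹ * (∫⁻ x, F x)) +
      ENNReal.ofReal t * (ENNReal.ofReal n⁻¹ * (∫⁻ x, G x))
      ≤ ENNReal.ofReal r⁻¹ * ∫⁻ x, H x := by
    rw [← e1, ← e2]
    exact main.trans e3
  set A := ∫⁻ x, F x with hA
  set B := ∫⁻ x, G x with hB
  set C := ∫⁻ x, H x with hC'
  have hR : ENNReal.ofReal r⁻¹ * C ≠ ∞ := by finiteness
  have hAt : A ≠ ∞ := by
    intro hinf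
    rw [hinf, ENNReal.mul_top (by simpa using mpos), ENNReal.mul_top (by simpa using t1)] at main2
    simp only [top_add, top_le_iff] at main2
    exact hR main2
  have hBt : B ≠ ∞ := by
    intro hinf
    rw [hinf, ENNReal.mul_top (by simpa using npos), ENNReal.mul_top (by simpa using ht0)] at main2
    simp only [add_top, top_le_iff] at main2
    exact hR main2
  have main3 := ENNReal.toReal_mono hR main2
  rw [ENNReal.toReal_add (by finiteness) (by finiteness), ENNReal.toReal_mul, ENNReal.toReal_mul,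
    ENNReal.toReal_mul, ENNReal.toReal_mul, ENNReal.toReal_mul, ENNReal.toReal_ofReal t1.le,
    ENNReal.toReal_ofReal (by positivity), ENNReal.toReal_ofReal ht0.le,
    ENNReal.toReal_ofReal (by positivity), ENNReal.toReal_ofReal (by positivity)] at main3
  have hfin : A.toReal ^ (1 - t) * B.toReal ^ t ≤ C.toReal := by
    have a0 : 0 ≤ A.toReal := ENNReal.toReal_nonneg
    have b0 : 0 ≤ B.toReal := ENNReal.toReal_nonneg
    have c0 : 0 ≤ C.toReal := ENNReal.toReal_nonneg
    have amgm := Real.geom_mean_le_arith_mean2_weighted t1.le ht0.le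
      (show 0 ≤ m⁻¹ * A.toReal by positivity) (show 0 ≤ n⁻¹ * B.toReal by positivity) (by ring)
    have h5 : (m⁻¹ * A.toReal) ^ (1 - t) * (n⁻¹ * B.toReal) ^ t =
        r⁻¹ * (A.toReal ^ (1 - t) * B.toReal ^ t) := by
      rw [Real.mul_rpow (by positivity) (by positivity), Real.mul_rpow (by positivity)
        (by positivity), Real.inv_rpow mpos.le, Real.inv_rpow npos.le, hr, mul_inv]
      ring
    rw [h5] at amgm
    have h6 := amgm.trans main3
    exact le_of_mul_le_mul_left h6 (by positivity)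
  rw [← ENNReal.ofReal_toReal hAt, ← ENNReal.ofReal_toReal hBt, ← ENNReal.ofReal_toReal hC,
    ENNReal.ofReal_rpow_of_nonneg ENNReal.toReal_nonneg t1.le,
    ENNReal.ofReal_rpow_of_nonneg ENNReal.toReal_nonneg ht0.le,
    ← ENNReal.ofReal_mul (by positivity)]
  exact ENNReal.ofReal_le_ofReal hfin

theorem iSup_rpow {ι : Type*} (a : ι → ℝ≥0∞) (s : ℝ) (hs : 0 < s) :
    (⨆ i, a i) ^ s = ⨆ i, a i ^ s := by
  exact (ENNReal.orderIsoRpow s hs).map_iSup a

/-- one-dimensional Prekopa-Leindler inequality -/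
theorem pl1 (t : ℝ) (ht0 : 0 < t) (ht1 : t < 1)
    (F G H : ℝ → ℝ≥0∞) (hF : Measurable F) (hG : Measurable G) (hH : Measurable H)
    (HH : ∀ x y, F x ^ (1 - t) * G y ^ t ≤ H ((1 - t) * x + t * y)) :
    (∫⁻ x, F x) ^ (1 - t) * (∫⁻ x, G x) ^ t ≤ ∫⁻ x, H x := by
  have t1 : 0 < 1 - t := by linarith
  have trunc : ∀ K : ℝ → ℝ≥0∞, Measurable K →
      (∫⁻ x, K x) = ⨆ k : ℕ, ∫⁻ x, min (K x) (k : ℝ≥0∞) := by
    intro K hK
    rw [← lintegral_iSup (fun k => hK.min measurable_const)]
    · refine lintegral_congr (fun x => ?_)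
      rw [← inf_iSup_eq, ENNReal.iSup_natCast]
      simp
    · intro k l hkl x
      simp only
      gcongr
  rw [trunc F hF, trunc G hG, iSup_rpow _ _ t1, iSup_rpow _ _ ht0, ENNReal.iSup_mul]
  refine iSup_le (fun k => ?_)
  rw [ENNReal.mul_iSup]
  refine iSup_le (fun l => ?_)
  refine pl1_bdd t ht0 ht1 _ _ H (hF.min measurable_const) (hG.min measurable_const) hH
    (max (k : ℝ≥0∞) l) (by finiteness) (fun x => ?_) (fun x => ?_) (fun x y => ?_)
  · exact (min_le_right _ _).trans (le_max_left _ _)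
  · exact (min_le_right _ _).trans (le_max_right _ _)
  · refine le_trans ?_ (HH x y)
    gcongr
    · exact min_le_left _ _
    · exact min_le_left _ _

open Pool.Agent.PZ871.PLaux (measurable_cons lintegral_succ)

/-- Prekopa-Leindler in dimension `n` -/
theorem pln (t : ℝ) (ht0 : 0 < t) (ht1 : t < 1) :
    ∀ (n : ℕ) (f g h : (Fin n → ℝ) → ℝ≥0∞), Measurable f → Measurable g →
    Measurable h →
    (∀ x y : Fin n → ℝ, f x ^ (1 - t) * g y ^ t ≤ h ((1 - t) • x + t • y)) →
    (∫⁻ x, f x) ^ (1 - t) * (∫⁻ x, g x) ^ t ≤ ∫⁻ x, h x := by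
  intro n
  induction n with
  | zero =>
    intro f g h hf hg hh H
    simp only [lintegral_unique]
    have hv : (volume : Measure (Fin 0 → ℝ)) univ = 1 := by
      rw [Measure.volume_pi_eq_dirac (fun i => i.elim0)]; simp
    rw [hv]
    simp only [mul_one]
    have := H (Unique.instInhabited.default) (Unique.instInhabited.default)
    rw [Subsingleton.elim ((1 - t) • (Unique.instInhabited.default : Fin 0 → ℝ) +
      t • (Unique.instInhabited.default : Fin 0 → ℝ)) (Unique.instInhabited.default)] at this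
    exact this
  | succ n ih =>
    intro f g h hf hg hh H
    rw [lintegral_succ n f hf, lintegral_succ n g hg, lintegral_succ n h hh]
    have hcons := measurable_cons n
    have hcons2 : ∀ a : ℝ, Measurable (fun v : Fin n → ℝ => (Fin.cons a v : Fin (n + 1) → ℝ)) :=
      fun a => hcons.comp (measurable_const.prodMk measurable_id)
    refine pl1 t ht0 ht1 _ _ _ ?_ ?_ ?_ ?_
    · exact (hf.comp hcons).lintegral_prod_right'
    · exact (hg.comp hcons).lintegral_prod_right'
    · exact (hh.comp hcons).lintegral_prod_right'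
    · intro x y
      refine ih _ _ _ (hf.comp (hcons2 x)) (hg.comp (hcons2 y)) (hh.comp (hcons2 _)) ?_
      intro u v
      have := H (Fin.cons x u) (Fin.cons y v)
      refine this.trans (le_of_eq ?_)
      congr 1
      ext i
      refine Fin.cases ?_ (fun j => ?_) i <;> simp

end PLt

/-- Prekopa-Leindler for every weight and every Haar measure -/
theorem PL {F : Type*} [NormedAddCommGroup F] [NormedSpace ℝ F] [FiniteDimensional ℝ F]
    [MeasurableSpace F] [BorelSpace F] (ν : Measure F) [ν.IsAddHaarMeasure] (t : ℝ)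
    (ht0 : 0 < t) (ht1 : t < 1) (f g h : F → ℝ≥0∞) (hf : Measurable f) (hg : Measurable g)
    (hh : Measurable h) (H : ∀ x y, f x ^ (1 - t) * g y ^ t ≤ h ((1 - t) • x + t • y)) :
    (∫⁻ x, f x ∂ν) ^ (1 - t) * (∫⁻ x, g x ∂ν) ^ t ≤ ∫⁻ x, h x ∂ν := by
  have t1 : 0 < 1 - t := by linarith
  let n := Module.finrank ℝ F
  let e : F ≃L[ℝ] (Fin n → ℝ) := ContinuousLinearEquiv.ofFinrankEq (by simp [n])
  have hem : Measurable e := e.continuous.measurable
  have hesm : Measurable e.symm := e.symm.continuous.measurable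
  have : (Measure.map e ν).IsAddHaarMeasure := e.isAddHaarMeasure_map ν
  have hc' := Measure.isAddLeftInvariant_eq_smul (Measure.map e ν) (volume : Measure (Fin n → ℝ))
  have hcp := Measure.addHaarScalarFactor_pos_of_isAddHaarMeasure (Measure.map e ν)
    (volume : Measure (Fin n → ℝ))
  obtain ⟨c, hc0, hct, hc⟩ : ∃ c : ℝ≥0∞, c ≠ 0 ∧ c ≠ ∞ ∧ Measure.map e ν = c • volume :=
    ⟨_, ENNReal.coe_ne_zero.mpr hcp.ne', ENNReal.coe_ne_top, hc'⟩
  have key : ∀ k : F → ℝ≥0∞, Measurable k →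
      ∫⁻ x, k x ∂ν = c * ∫⁻ x : Fin n → ℝ, k (e.symm x) := by
    intro k hk
    have h1 : ∫⁻ x, k x ∂ν = ∫⁻ y, k (e.symm y) ∂(Measure.map e ν) := by
      have h2 := lintegral_map (μ := ν) (f := fun y => k (e.symm y)) (g := e)
        (hk.comp hesm) hem
      rw [h2]
      simp
    rw [h1, hc, lintegral_smul_measure]
    rfl
  rw [key f hf, key g hg, key h hh]
  have main := PLt.pln t ht0 ht1 n (fun x => f (e.symm x)) (fun x => g (e.symm x))
    (fun x => h (e.symm x)) (hf.comp hesm) (hg.comp hesm) (hh.comp hesm) (by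
      intro x y
      have := H (e.symm x) (e.symm y)
      simpa using this)
  rw [ENNReal.mul_rpow_of_nonneg _ _ t1.le, ENNReal.mul_rpow_of_nonneg _ _ ht0.le]
  calc c ^ (1 - t) * (∫⁻ x : Fin n → ℝ, f (e.symm x)) ^ (1 - t) *
        (c ^ t * (∫⁻ x : Fin n → ℝ, g (e.symm x)) ^ t)
      = (c ^ (1 - t) * c ^ t) * ((∫⁻ x : Fin n → ℝ, f (e.symm x)) ^ (1 - t) *
        (∫⁻ x : Fin n → ℝ, g (e.symm x)) ^ t) := by ring
    _ = c * ((∫⁻ x : Fin n → ℝ, f (e.symm x)) ^ (1 - t) *
        (∫⁻ x : Fin n → ℝ, g (e.symm x)) ^ t) := by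
        rw [← ENNReal.rpow_add _ _ hc0 hct]
        simp
    _ ≤ _ := by gcongr

end Pool.Agent.H212R2.KLS
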