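import Pool.Agent.H59.L.S8.H212R2.KLS.Defs

/-!
# A1: algebra of the rotation fields
-/

set_option autoImplicit false

namespace Pool.Agent.H212R2.KLS

open MvPolynomial

/-- Kronecker symbol -/
noncomputable def A1dl {ι : Type*} [DecidableEq ι] (x y : ι) : ℝ := if x = y then 1 else 0

theorem A1dl_comm {ι : Type*} [DecidableEq ι] (x y : ι) : A1dl x y = A1dl y x := by
  unfold A1dl
  by_cases h : x = y
  · rw [if_pos h, if_pos h.symm]
  · rw [if_neg h, if_neg (fun h' => h h'.symm)]

theorem A1dl_prod {ι κ : Type*} [DecidableEq ι] [DecidableEq κ] (x y : ι) (j k : κ) :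
    A1dl (x, j) (y, k) = A1dl x y * A1dl j k := by
  unfold A1dl
  by_cases h1 : x = y <;> by_cases h2 : j = k <;> simp [h1, h2]

theorem A1_ite {ι M : Type*} [DecidableEq ι] [AddCommGroup M] [Module ℝ M] (x y : ι) (t : M) :
    (if x = y then t else 0) = A1dl x y • t := by
  unfold A1dl
  by_cases h : x = y
  · rw [if_pos h, if_pos h, one_smul]
  · rw [if_neg h, if_neg h, zero_smul]

theorem A1_DD_X {m n : ℕ} (a b e : Fin m) (j : Fin n) :
    DD a b (X (e, j) : MvPolynomial (Fin m × Fin n) ℝ) =
      A1dl e a • (X (b, j) : MvPolynomial (Fin m × Fin n) ℝ) - A1dl e b • X (a, j) := by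
  unfold DD
  rw [mkDerivation_X]
  simp only
  rw [A1_ite, A1_ite]

theorem A1_pd_X {m n : ℕ} (c e : Fin m) (j k : Fin n) :
    pderiv (c, j) (X (e, k) : MvPolynomial (Fin m × Fin n) ℝ) =
      (A1dl c e * A1dl j k) • (1 : MvPolynomial (Fin m × Fin n) ℝ) := by
  rw [← A1dl_prod, pderiv_X, Pi.single_apply, A1dl_comm, ← A1_ite]

theorem DD_anti {m n : ℕ} (a b : Fin m) (p : MvPolynomial (Fin m × Fin n) ℝ) :
    DD b a p = - DD a b p := by
  have h : (DD b a : Derivation ℝ (MvPolynomial (Fin m × Fin n) ℝ) _) = - DD a b := by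
    apply MvPolynomial.derivation_ext
    rintro ⟨e, j⟩
    rw [Derivation.neg_apply, A1_DD_X, A1_DD_X]
    abel
  rw [h, Derivation.neg_apply]

theorem DD_comm {m n : ℕ} (a b c d : Fin m) (p : MvPolynomial (Fin m × Fin n) ℝ) :
    DD a b (DD c d p) - DD c d (DD a b p) =
      (if a = d then DD c b p else 0) + (if b = d then DD a c p else 0) +
      (if a = c then DD b d p else 0) + (if b = c then DD d a p else 0) := by
  have h : (⁅(DD a b : Derivation ℝ (MvPolynomial (Fin m × Fin n) ℝ) _), DD c d⁆ :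
      Derivation ℝ (MvPolynomial (Fin m × Fin n) ℝ) _) =
      A1dl a d • DD c b + A1dl b d • DD a c + A1dl a c • DD b d + A1dl b c • DD d a := by
    apply MvPolynomial.derivation_ext
    rintro ⟨e, j⟩
    rw [Derivation.commutator_apply]
    simp only [Derivation.add_apply, Derivation.smul_apply, A1_DD_X, map_sub,
      Derivation.map_smul]
    rw [A1dl_comm d a, A1dl_comm d b, A1dl_comm c a, A1dl_comm c b]
    module
  have h2 := congrArg (fun D : Derivation ℝ (MvPolynomial (Fin m × Fin n) ℝ)
    (MvPolynomial (Fin m × Fin n) ℝ) => D p) h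
  simp only [Derivation.commutator_apply, Derivation.add_apply, Derivation.smul_apply] at h2
  rw [h2, A1_ite, A1_ite, A1_ite, A1_ite]

theorem A1_pderiv_deg {ι : Type*} (j : ι) (f : MvPolynomial ι ℝ) :
    pderiv j f = 0 ∨ (pderiv j f).totalDegree + 1 ≤ f.totalDegree := by
  classical
  by_cases h : pderiv j f = 0
  · exact Or.inl h
  · refine Or.inr ?_
    obtain ⟨m, hm⟩ : ∃ m, m ∈ (pderiv j f).support ∧
        (pderiv j f).totalDegree = m.sum fun _ e => e := by
      have hne : (pderiv j f).support.Nonempty := by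
        rwa [Finset.nonempty_iff_ne_empty, ne_eq, MvPolynomial.support_eq_empty]
      obtain ⟨m, hm, he⟩ := Finset.exists_mem_eq_sup _ hne (fun s : ι →₀ ℕ => s.sum fun _ e => e)
      exact ⟨m, hm, he⟩
    have h1 : m + Finsupp.single j 1 ∈ f.support := by
      have := hm.1
      rw [mem_support_iff, coeff_pderiv] at this
      rw [mem_support_iff]
      exact left_ne_zero_of_mul this
    have h2 := le_totalDegree h1
    rw [Finsupp.sum_add_index' (fun _ => rfl) (fun _ _ _ => rfl), Finsupp.sum_single_index rfl] at h2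
    rw [hm.2]
    exact h2

theorem A1_sum_apply {ι R A : Type*} [CommRing R] [CommRing A] [Algebra R A] (t : Finset ι)
    (D : ι → Derivation R A A) (p : A) : (∑ j ∈ t, D j) p = ∑ j ∈ t, D j p := by
  classical
  induction t using Finset.induction_on with
  | empty => simp
  | insert j t hj ih => rw [Finset.sum_insert hj, Finset.sum_insert hj, Derivation.add_apply, ih]

theorem A1_DD_eq {m n : ℕ} (a b : Fin m) (p : MvPolynomial (Fin m × Fin n) ℝ) :
    DD a b p = ∑ j, (X (b, j) * pderiv (a, j) p - X (a, j) * pderiv (b, j) p) := by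
  have h : (DD a b : Derivation ℝ (MvPolynomial (Fin m × Fin n) ℝ) _) =
      ∑ j, ((X (b, j) : MvPolynomial (Fin m × Fin n) ℝ) • pderiv (a, j) -
        (X (a, j) : MvPolynomial (Fin m × Fin n) ℝ) • pderiv (b, j)) := by
    apply MvPolynomial.derivation_ext
    rintro ⟨e, k⟩
    rw [A1_DD_X, A1_sum_apply]
    simp only [Derivation.sub_apply, Derivation.smul_apply, A1_pd_X, smul_eq_mul]
    have h3 : ∀ j : Fin n, (X (b, j) : MvPolynomial (Fin m × Fin n) ℝ) *
        ((A1dl a e * A1dl j k) • (1 : MvPolynomial (Fin m × Fin n) ℝ)) -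
        X (a, j) * ((A1dl b e * A1dl j k) • (1 : MvPolynomial (Fin m × Fin n) ℝ)) =
        if j = k then (A1dl a e • X (b, j) - A1dl b e • X (a, j) :
          MvPolynomial (Fin m × Fin n) ℝ) else 0 := by
      intro j
      rw [A1_ite, mul_smul_comm, mul_smul_comm, mul_one, mul_one]
      module
    rw [Finset.sum_congr rfl (fun j _ => h3 j), Finset.sum_ite_eq' Finset.univ k,
      if_pos (Finset.mem_univ _), A1dl_comm a e, A1dl_comm b e]
  rw [h, A1_sum_apply]
  rfl

theorem DD_deg {m n : ℕ} (a b : Fin m) (p : MvPolynomial (Fin m × Fin n) ℝ) :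
    (DD a b p).totalDegree ≤ p.totalDegree := by
  have key : ∀ i k : Fin m × Fin n, (X i * pderiv k p).totalDegree ≤ p.totalDegree := by
    intro i k
    rcases A1_pderiv_deg k p with h | h
    · rw [h, mul_zero, totalDegree_zero]; exact Nat.zero_le _
    · refine (totalDegree_mul _ _).trans ?_
      rw [totalDegree_X]
      omega
  rw [A1_DD_eq]
  refine (totalDegree_finset_sum _ _).trans ?_
  refine Finset.sup_le fun j _ => ?_
  refine (totalDegree_sub _ _).trans ?_
  exact max_le (key _ _) (key _ _)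

theorem A1_pd_DD {m n : ℕ} (a b c : Fin m) (j : Fin n) (p : MvPolynomial (Fin m × Fin n) ℝ) :
    pderiv (c, j) (DD a b p) = DD a b (pderiv (c, j) p) + A1dl c b • pderiv (a, j) p -
      A1dl c a • pderiv (b, j) p := by
  have h : (⁅(pderiv (c, j) : Derivation ℝ (MvPolynomial (Fin m × Fin n) ℝ) _), DD a b⁆ :
      Derivation ℝ (MvPolynomial (Fin m × Fin n) ℝ) _) =
      A1dl c b • pderiv (a, j) - A1dl c a • pderiv (b, j) := by
    apply MvPolynomial.derivation_ext
    rintro ⟨e, k⟩
    rw [Derivation.commutator_apply]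
    simp only [Derivation.sub_apply, Derivation.smul_apply, A1_DD_X, A1_pd_X, map_sub,
      Derivation.map_smul, Derivation.map_one_eq_zero, smul_zero]
    rw [A1dl_comm e a, A1dl_comm e b]
    module
  have h2 := congrArg (fun D : Derivation ℝ (MvPolynomial (Fin m × Fin n) ℝ)
    (MvPolynomial (Fin m × Fin n) ℝ) => D p) h
  simp only [Derivation.commutator_apply, Derivation.sub_apply, Derivation.smul_apply] at h2
  rw [sub_eq_iff_eq_add] at h2
  rw [h2]
  abel

theorem DD_gr {m n : ℕ} (a b : Fin m) (p q : MvPolynomial (Fin m × Fin n) ℝ) :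
    DD a b (gr p q) = gr (DD a b p) q + gr p (DD a b q) := by
  have hcol : ∀ u v : MvPolynomial (Fin m × Fin n) ℝ,
      ∑ i : Fin m × Fin n, (A1dl i.1 b • pderiv (a, i.2) u - A1dl i.1 a • pderiv (b, i.2) u) *
        pderiv i v = ∑ j, (pderiv (a, j) u * pderiv (b, j) v - pderiv (b, j) u * pderiv (a, j) v) := by
    intro u v
    rw [Fintype.sum_prod_type, Finset.sum_comm]
    refine Finset.sum_congr rfl fun j _ => ?_
    have h1 : ∀ c : Fin m, (A1dl c b • pderiv (a, j) u - A1dl c a • pderiv (b, j) u) *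
        pderiv (c, j) v = (if c = b then pderiv (a, j) u * pderiv (c, j) v else 0) -
        (if c = a then pderiv (b, j) u * pderiv (c, j) v else 0) := by
      intro c
      rw [A1_ite, A1_ite, sub_mul, smul_mul_assoc, smul_mul_assoc]
    simp only
    rw [Finset.sum_congr rfl (fun c _ => h1 c), Finset.sum_sub_distrib,
      Finset.sum_ite_eq' Finset.univ b, Finset.sum_ite_eq' Finset.univ a,
      if_pos (Finset.mem_univ _), if_pos (Finset.mem_univ _)]
  unfold gr
  rw [map_sum]
  have h2 : ∀ i : Fin m × Fin n, DD a b (pderiv i p * pderiv i q) =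
      pderiv i (DD a b p) * pderiv i q + pderiv i p * pderiv i (DD a b q) -
      ((A1dl i.1 b • pderiv (a, i.2) p - A1dl i.1 a • pderiv (b, i.2) p) * pderiv i q +
       (A1dl i.1 b • pderiv (a, i.2) q - A1dl i.1 a • pderiv (b, i.2) q) * pderiv i p) := by
    rintro ⟨c, j⟩
    rw [Derivation.leibniz, A1_pd_DD, A1_pd_DD]
    simp only [smul_eq_mul]
    ring
  rw [Finset.sum_congr rfl (fun i _ => h2 i), Finset.sum_sub_distrib, Finset.sum_add_distrib,
    Finset.sum_add_distrib, hcol, hcol,
    ← Finset.sum_add_distrib (f := fun j : Fin n =>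
      (pderiv (a, j) p * pderiv (b, j) q - pderiv (b, j) p * pderiv (a, j) q))]
  have h3 : ∑ j : Fin n, ((pderiv (a, j) p * pderiv (b, j) q - pderiv (b, j) p * pderiv (a, j) q) +
      (pderiv (a, j) q * pderiv (b, j) p - pderiv (b, j) q * pderiv (a, j) p)) = 0 :=
    Finset.sum_eq_zero fun j _ => by ring
  rw [h3, sub_zero]

end Pool.Agent.H212R2.KLS
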