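import Pool.Agent.H59.L.S8.H212R2.KLS.Defs
import Pool.Agent.H59.L.S8.H212R2.KLS.A3

/-!
# A6: the angular part on polynomials (helper498)
-/

set_option autoImplicit false

namespace Pool.Agent.H212R2.KLS

open MeasureTheory Set Matrix
open scoped ENNReal InnerProductSpace

namespace A6

section Ev

variable {ι : Type*}

theorem ev_add (p q : MvPolynomial ι ℝ) (x : EuclideanSpace ℝ ι) :
    ev (p + q) x = ev p x + ev q x := map_add _ _ _

theorem ev_sub (p q : MvPolynomial ι ℝ) (x : EuclideanSpace ℝ ι) :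
    ev (p - q) x = ev p x - ev q x := map_sub _ _ _

theorem ev_mul (p q : MvPolynomial ι ℝ) (x : EuclideanSpace ℝ ι) :
    ev (p * q) x = ev p x * ev q x := map_mul _ _ _

theorem ev_smul (c : ℝ) (p : MvPolynomial ι ℝ) (x : EuclideanSpace ℝ ι) :
    ev (c • p) x = c * ev p x := by
  unfold ev
  rw [MvPolynomial.smul_eval]

theorem ev_sum {κ : Type*} (s : Finset κ) (f : κ → MvPolynomial ι ℝ) (x : EuclideanSpace ℝ ι) :
    ev (∑ i ∈ s, f i) x = ∑ i ∈ s, ev (f i) x := map_sum _ _ _

theorem ev_cont (p : MvPolynomial ι ℝ) : Continuous (ev p) := by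
  unfold ev
  exact (MvPolynomial.continuous_eval p).comp (PiLp.continuous_ofLp 2 _)

end Ev

section Int

variable {m n : ℕ} {μ : Measure (E m n)} [IsFiniteMeasure μ]

theorem ev_int (hb : ∃ R, μ (Metric.closedBall 0 R)ᶜ = 0)
    (p : MvPolynomial (Fin m × Fin n) ℝ) : Integrable (ev p) μ := by
  obtain ⟨R, hR⟩ := hb
  have h1 : μ.restrict (Metric.closedBall 0 R) = μ :=
    Measure.restrict_eq_self_of_ae_mem (mem_ae_iff.2 hR)
  rw [← h1]
  exact (ev_cont p).continuousOn.integrableOn_compact (isCompact_closedBall 0 R)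

/-- the integral as a linear functional on polynomials -/
noncomputable def II (μ : Measure (E m n)) [IsFiniteMeasure μ]
    (hb : ∃ R, μ (Metric.closedBall 0 R)ᶜ = 0) :
    MvPolynomial (Fin m × Fin n) ℝ →ₗ[ℝ] ℝ where
  toFun p := ∫ x, ev p x ∂μ
  map_add' p q := by
    simp only [ev_add]
    exact integral_add (ev_int hb p) (ev_int hb q)
  map_smul' c p := by
    simp only [ev_smul, RingHom.id_apply, smul_eq_mul]
    exact integral_const_mul c _

theorem II_apply (hb : ∃ R, μ (Metric.closedBall 0 R)ᶜ = 0)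
    (p : MvPolynomial (Fin m × Fin n) ℝ) : II μ hb p = ∫ x, ev p x ∂μ := rfl

end Int

section Gr

variable {ι : Type*} [Fintype ι]

theorem gr_add_right (p q r : MvPolynomial ι ℝ) : gr p (q + r) = gr p q + gr p r := by
  unfold gr
  rw [← Finset.sum_add_distrib]
  exact Finset.sum_congr rfl fun i _ => by rw [map_add]; ring

theorem gr_comm (p q : MvPolynomial ι ℝ) : gr p q = gr q p := by
  unfold gr
  exact Finset.sum_congr rfl fun i _ => mul_comm _ _

theorem gr_zero_left (q : MvPolynomial ι ℝ) : gr 0 q = 0 := by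
  unfold gr
  exact Finset.sum_eq_zero fun i _ => by rw [map_zero, zero_mul]

theorem gr_sum_right {κ : Type*} (s : Finset κ) (p : MvPolynomial ι ℝ)
    (f : κ → MvPolynomial ι ℝ) : gr p (∑ i ∈ s, f i) = ∑ i ∈ s, gr p (f i) := by
  unfold gr
  rw [Finset.sum_comm]
  exact Finset.sum_congr rfl fun i _ => by rw [map_sum, Finset.mul_sum]

theorem ev_gr_nonneg (p : MvPolynomial ι ℝ) (x : EuclideanSpace ℝ ι) : 0 ≤ ev (gr p p) x := by
  unfold gr
  rw [ev_sum]
  exact Finset.sum_nonneg fun i _ => by rw [ev_mul]; exact mul_self_nonneg _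

end Gr

end A6

open A6

/-- A6 (assembly of A1-A5), with the statements of A1, A2, A4 as explicit hypotheses. -/
theorem angular_of {m n : ℕ}
    (DD_anti : ∀ (a b : Fin m) (p : MvPolynomial (Fin m × Fin n) ℝ), DD b a p = - DD a b p)
    (DD_comm : ∀ (a b c d : Fin m) (p : MvPolynomial (Fin m × Fin n) ℝ),
      DD a b (DD c d p) - DD c d (DD a b p) =
      (if a = d then DD c b p else 0) + (if b = d then DD a c p else 0) +
      (if a = c then DD b d p else 0) + (if b = c then DD d a p else 0))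
    (DD_deg : ∀ (a b : Fin m) (p : MvPolynomial (Fin m × Fin n) ℝ),
      (DD a b p).totalDegree ≤ p.totalDegree)
    (DD_gr : ∀ (a b : Fin m) (p q : MvPolynomial (Fin m × Fin n) ℝ),
      DD a b (gr p q) = gr (DD a b p) q + gr p (DD a b q))
    (gap : ∀ (W : Submodule ℝ (MvPolynomial (Fin m × Fin n) ℝ))
      (b : W →ₗ[ℝ] W →ₗ[ℝ] ℝ) (_ : ∀ x y, b x y = b y x) (_ : ∀ x, 0 ≤ b x x)
      (D : Fin m × Fin m → W →ₗ[ℝ] W) (_ : ∀ i x y, b (D i x) y = - b x (D i y))
      (_ : ∀ i j x, D (j, i) x = - D (i, j) x)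
      (_ : ∀ a b' c d x, D (a, b') (D (c, d) x) - D (c, d) (D (a, b') x) =
        (if a = d then D (c, b') x else 0) + (if b' = d then D (a, c) x else 0) +
        (if a = c then D (b', d) x else 0) + (if b' = c then D (d, a) x else 0)) (x : W),
      ((m : ℝ) - 2) * ∑ i, b (D i x) (D i x) ≤
        b (∑ i, D i (D i x)) (∑ i, D i (D i x)))
    (hm : 3 ≤ m) (μ : Measure (E m n)) [IsFiniteMeasure μ]
    (DD_integral : ∀ (a b : Fin m) (p : MvPolynomial (Fin m × Fin n) ℝ),
      ∫ x, ev (DD a b p) x ∂μ = 0)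
    (hb : ∃ R, μ (Metric.closedBall 0 R)ᶜ = 0)
    (hpos : ∀ p : MvPolynomial (Fin m × Fin n) ℝ, ∫ x, (ev p x) ^ 2 ∂μ = 0 → p = 0)
    (p : MvPolynomial (Fin m × Fin n) ℝ) :
    ∃ p0 : MvPolynomial (Fin m × Fin n) ℝ, (∀ a b, DD a b p0 = 0) ∧
      ∫ x, (ev p x - ev p0 x) ∂μ = 0 ∧ ∫ x, ev p0 x * (ev p x - ev p0 x) ∂μ = 0 ∧
      ((m : ℝ) - 2) * ∫ x, (ev p x - ev p0 x) ^ 2 ∂μ ≤
        ∑ a, ∑ b, ∫ x, (ev (DD a b p) x) ^ 2 ∂μ ∧
      ∫ x, ev (gr p0 p0) x ∂μ ≤ ∫ x, ev (gr p p) x ∂μ := by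
  set k := p.totalDegree with hk
  let W := MvPolynomial.restrictTotalDegree (Fin m × Fin n) ℝ k
  -- the bilinear form
  let B : W →ₗ[ℝ] W →ₗ[ℝ] ℝ := LinearMap.mk₂ ℝ (fun f g => II μ hb (f.1 * g.1))
    (fun f f' g => by
      simp only [Submodule.coe_add]
      rw [add_mul, map_add])
    (fun c f g => by
      simp only [Submodule.coe_smul]
      rw [smul_mul_assoc, map_smul])
    (fun f g g' => by
      simp only [Submodule.coe_add]
      rw [mul_add, map_add])
    (fun c f g => by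
      simp only [Submodule.coe_smul]
      rw [mul_smul_comm, map_smul])
  have hB : ∀ f g : W, B f g = II μ hb (f.1 * g.1) := fun f g => rfl
  -- the operators
  let D : Fin m × Fin m → W →ₗ[ℝ] W := fun i =>
    (DD i.1 i.2 : Derivation ℝ (MvPolynomial (Fin m × Fin n) ℝ)
      (MvPolynomial (Fin m × Fin n) ℝ)).toLinearMap.restrict (p := W) (q := W) (by
        intro f hf
        rw [MvPolynomial.mem_restrictTotalDegree] at hf ⊢
        exact (DD_deg i.1 i.2 f).trans hf)
  have hD : ∀ i (f : W), (D i f).1 = DD i.1 i.2 f.1 := fun i f => rfl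
  have hI0 : ∀ (a b : Fin m) (q : MvPolynomial (Fin m × Fin n) ℝ), II μ hb (DD a b q) = 0 :=
    fun a b q => DD_integral a b q
  have hsymm : ∀ x y, B x y = B y x := fun x y => by rw [hB, hB, mul_comm]
  have hBsq : ∀ f : W, B f f = ∫ x, (ev f.1 x) ^ 2 ∂μ := by
    intro f
    rw [hB, II_apply]
    exact integral_congr_ae (Filter.Eventually.of_forall fun x => by
      simp only [ev_mul]; exact (pow_two _).symm)
  have hBnn : ∀ f : W, 0 ≤ B f f := by
    intro f
    rw [hBsq]
    exact integral_nonneg fun x => sq_nonneg _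
  have hBpos : ∀ f : W, f ≠ 0 → 0 < B f f := by
    intro f hf
    refine lt_of_le_of_ne (hBnn f) fun h => hf ?_
    rw [hBsq] at h
    exact Subtype.ext (hpos f.1 h.symm)
  have hleib : ∀ (a b : Fin m) (f g : MvPolynomial (Fin m × Fin n) ℝ),
      II μ hb (DD a b f * g) = - II μ hb (f * DD a b g) := by
    intro a b f g
    have h := hI0 a b (f * g)
    rw [Derivation.leibniz, smul_eq_mul, smul_eq_mul, map_add] at h
    rw [mul_comm (DD a b f) g]
    linarith
  have hskew : ∀ i x y, B (D i x) y = - B x (D i y) := by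
    intro i x y
    rw [hB, hB, hD, hD]
    exact hleib _ _ _ _
  have hm2 : (0 : ℝ) < (m : ℝ) - 2 := by
    have : (3 : ℝ) ≤ m := by exact_mod_cast hm
    linarith
  have hgap : ∀ x, ((m : ℝ) - 2) * ∑ i, B (D i x) (D i x) ≤
      B (∑ i, D i (D i x)) (∑ i, D i (D i x)) := by
    intro x
    refine gap W B hsymm hBnn D hskew ?_ ?_ x
    · intro i j y
      apply Subtype.ext
      rw [Submodule.coe_neg, hD, hD]
      exact DD_anti _ _ _
    · intro a b' c d y
      have h := DD_comm a b' c d y.1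
      apply Subtype.ext
      rw [Submodule.coe_sub, Submodule.coe_add, Submodule.coe_add, Submodule.coe_add]
      simp only [hD]
      rw [h]
      congr 1
      · congr 1
        · congr 1
          · split_ifs <;> rfl
          · split_ifs <;> rfl
        · split_ifs <;> rfl
      · split_ifs <;> rfl
  obtain ⟨x0, hx0, ⟨z, hz⟩, hineq⟩ := duality B hsymm hBpos D hskew ((m : ℝ) - 2) hm2 hgap
    ⟨p, (MvPolynomial.mem_restrictTotalDegree _ _ _).2 le_rfl⟩
  set x : W := ⟨p, (MvPolynomial.mem_restrictTotalDegree _ _ _).2 le_rfl⟩ with hx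
  set p0 := x0.1 with hp0
  have hDp0 : ∀ a b, DD a b p0 = 0 := by
    intro a b
    have := congrArg Subtype.val (hx0 (a, b))
    rwa [hD] at this
  have hw : p - p0 = ∑ i : Fin m × Fin m, DD i.1 i.2 (DD i.1 i.2 z.1) := by
    have := congrArg Subtype.val hz
    rw [Submodule.coe_sub, Submodule.coe_sum] at this
    exact this
  have hsub : ∀ y, ev p y - ev p0 y = ev (p - p0) y := fun y => (ev_sub p p0 y).symm
  refine ⟨p0, hDp0, ?_, ?_, ?_, ?_⟩
  · simp only [hsub]
    rw [← II_apply hb, hw, map_sum]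
    exact Finset.sum_eq_zero fun i _ => hI0 _ _ _
  · have e : ∀ y, ev p0 y * (ev p y - ev p0 y) = ev (p0 * (p - p0)) y := by
      intro y
      rw [ev_mul, ev_sub]
    simp only [e]
    rw [← II_apply hb, hw, Finset.mul_sum, map_sum]
    refine Finset.sum_eq_zero fun i _ => ?_
    have := hleib i.1 i.2 p0 (DD i.1 i.2 z.1)
    rw [hDp0, zero_mul, map_zero] at this
    linarith
  · have h1 : ∫ y, (ev p y - ev p0 y) ^ 2 ∂μ = B (x - x0) (x - x0) := by
      rw [hBsq]
      simp only [hsub]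
      rfl
    have h2 : ∑ a, ∑ b, ∫ y, (ev (DD a b p) y) ^ 2 ∂μ = ∑ i, B (D i x) (D i x) := by
      rw [Fintype.sum_prod_type]
      exact Finset.sum_congr rfl fun a _ => Finset.sum_congr rfl fun b _ => by
        rw [hBsq, hD]
    rw [h1, h2]
    exact hineq
  · rw [← II_apply hb, ← II_apply hb]
    have h0 : II μ hb (gr p0 (p - p0)) = 0 := by
      rw [hw, gr_sum_right, map_sum]
      refine Finset.sum_eq_zero fun i _ => ?_
      have h := DD_gr i.1 i.2 p0 (DD i.1 i.2 z.1)
      rw [hDp0, gr_zero_left, zero_add] at h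
      rw [← h]
      exact hI0 _ _ _
    have h1 : gr p p = gr p0 p0 + (2 : ℝ) • gr p0 (p - p0) + gr (p - p0) (p - p0) := by
      have e : p = p0 + (p - p0) := by ring
      conv_lhs => rw [e]
      rw [gr_add_right, gr_comm _ p0, gr_comm _ (p - p0), gr_add_right, gr_add_right,
        gr_comm (p - p0) p0, two_smul]
      ring
    rw [h1, map_add, map_add, map_smul, h0, smul_zero, add_zero]
    have h2 : 0 ≤ II μ hb (gr (p - p0) (p - p0)) := by
      rw [II_apply]
      exact integral_nonneg fun y => ev_gr_nonneg _ _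
    linarith

end Pool.Agent.H212R2.KLS
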