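import Pool.Agent.H59.L.S8.H212R2.KLS.Defs

/-!
# Polynomials: smoothness, gradient and the bound for the rotation fields
-/

set_option autoImplicit false

namespace Pool.Agent.H212R2.KLS

open MeasureTheory Set Matrix
open scoped ENNReal RealInnerProductSpace

namespace A8

theorem ev_C {ι : Type*} (a : ℝ) (x : EuclideanSpace ℝ ι) :
    ev (MvPolynomial.C a) x = a := by
  unfold ev
  rw [MvPolynomial.eval_C]

theorem ev_add {ι : Type*} (p q : MvPolynomial ι ℝ) (x : EuclideanSpace ℝ ι) :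
    ev (p + q) x = ev p x + ev q x := by
  unfold ev
  rw [map_add]

theorem ev_sub {ι : Type*} (p q : MvPolynomial ι ℝ) (x : EuclideanSpace ℝ ι) :
    ev (p - q) x = ev p x - ev q x := by
  unfold ev
  rw [map_sub]

theorem ev_mul {ι : Type*} (p q : MvPolynomial ι ℝ) (x : EuclideanSpace ℝ ι) :
    ev (p * q) x = ev p x * ev q x := by
  unfold ev
  rw [map_mul]

theorem ev_X {ι : Type*} (i : ι) (x : EuclideanSpace ℝ ι) :
    ev (MvPolynomial.X i) x = x i := by
  unfold ev
  rw [MvPolynomial.eval_X]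

theorem ev_zero {ι : Type*} (x : EuclideanSpace ℝ ι) :
    ev (0 : MvPolynomial ι ℝ) x = 0 := by
  unfold ev
  rw [map_zero]

theorem ev_sum {ι κ : Type*} (s : Finset κ) (f : κ → MvPolynomial ι ℝ)
    (x : EuclideanSpace ℝ ι) :
    ev (∑ k ∈ s, f k) x = ∑ k ∈ s, ev (f k) x := by
  unfold ev
  rw [map_sum]

theorem ev_hasFDerivAt {ι : Type*} [Fintype ι] (p : MvPolynomial ι ℝ)
    (x : EuclideanSpace ℝ ι) :
    HasFDerivAt (ev p)
      (∑ i, ev (MvPolynomial.pderiv i p) x • (EuclideanSpace.proj i : EuclideanSpace ℝ ι →L[ℝ] ℝ))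
      x := by
  classical
  induction p using MvPolynomial.induction_on with
  | C a =>
    have h1 : ev (MvPolynomial.C a : MvPolynomial ι ℝ) = fun _ => a := by
      funext y
      exact ev_C a y
    rw [h1]
    have h2 : (∑ i, ev (MvPolynomial.pderiv i (MvPolynomial.C a)) x •
        (EuclideanSpace.proj i : EuclideanSpace ℝ ι →L[ℝ] ℝ)) = 0 := by
      apply Finset.sum_eq_zero
      intro i _
      rw [MvPolynomial.pderiv_C, ev_zero, zero_smul]
    rw [h2]
    exact hasFDerivAt_const a x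
  | add p q hp hq =>
    have h1 : ev (p + q) = fun y => ev p y + ev q y := by
      funext y
      exact ev_add p q y
    rw [h1]
    have h2 : (∑ i, ev (MvPolynomial.pderiv i (p + q)) x •
        (EuclideanSpace.proj i : EuclideanSpace ℝ ι →L[ℝ] ℝ)) =
        (∑ i, ev (MvPolynomial.pderiv i p) x •
          (EuclideanSpace.proj i : EuclideanSpace ℝ ι →L[ℝ] ℝ)) +
        (∑ i, ev (MvPolynomial.pderiv i q) x •
          (EuclideanSpace.proj i : EuclideanSpace ℝ ι →L[ℝ] ℝ)) := by
      rw [← Finset.sum_add_distrib]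
      apply Finset.sum_congr rfl
      intro i _
      rw [map_add, ev_add, add_smul]
    rw [h2]
    exact hp.add hq
  | mul_X p j hp =>
    have h1 : ev (p * MvPolynomial.X j) = fun y => ev p y * y j := by
      funext y
      rw [ev_mul, ev_X]
    rw [h1]
    have h3 : HasFDerivAt (fun y : EuclideanSpace ℝ ι => y j)
        (EuclideanSpace.proj j : EuclideanSpace ℝ ι →L[ℝ] ℝ) x :=
      (EuclideanSpace.proj j : EuclideanSpace ℝ ι →L[ℝ] ℝ).hasFDerivAt
    have h4 := hp.mul h3
    have h5 : ∀ i, ev (MvPolynomial.pderiv i (p * MvPolynomial.X j)) x •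
        (EuclideanSpace.proj i : EuclideanSpace ℝ ι →L[ℝ] ℝ) =
        (if j = i then ev p x • (EuclideanSpace.proj i : EuclideanSpace ℝ ι →L[ℝ] ℝ) else 0) +
        x j • ev (MvPolynomial.pderiv i p) x •
          (EuclideanSpace.proj i : EuclideanSpace ℝ ι →L[ℝ] ℝ) := by
      intro i
      rw [Derivation.leibniz, ev_add, smul_eq_mul, smul_eq_mul, ev_mul, ev_mul, ev_X, add_smul,
        mul_smul (x j)]
      congr 1
      rw [MvPolynomial.pderiv_X]
      by_cases hij : j = i
      · subst hij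
        rw [if_pos rfl, Pi.single_eq_same]
        have : ev (1 : MvPolynomial ι ℝ) x = 1 := by
          unfold ev
          rw [map_one]
        rw [this, mul_one]
      · rw [if_neg hij, Pi.single_eq_of_ne (fun h => hij h), ev_zero, mul_zero, zero_smul]
    have h6 : (∑ i, ev (MvPolynomial.pderiv i (p * MvPolynomial.X j)) x •
        (EuclideanSpace.proj i : EuclideanSpace ℝ ι →L[ℝ] ℝ)) =
        ev p x • (EuclideanSpace.proj j : EuclideanSpace ℝ ι →L[ℝ] ℝ) +
        x j • ∑ i, ev (MvPolynomial.pderiv i p) x •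
          (EuclideanSpace.proj i : EuclideanSpace ℝ ι →L[ℝ] ℝ) := by
      rw [Finset.sum_congr rfl (fun i _ => h5 i), Finset.sum_add_distrib, Finset.smul_sum]
      congr 1
      rw [Finset.sum_ite_eq]
      simp
    rw [h6]
    exact h4

theorem norm_sum_proj {ι : Type*} [Fintype ι] (g : ι → ℝ) :
    ‖∑ i, g i • (EuclideanSpace.proj i : EuclideanSpace ℝ ι →L[ℝ] ℝ)‖ ^ 2 = ∑ i, g i ^ 2 := by
  have h1 : (∑ i, g i • (EuclideanSpace.proj i : EuclideanSpace ℝ ι →L[ℝ] ℝ)) =
      innerSL ℝ (WithLp.toLp 2 g : EuclideanSpace ℝ ι) := by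
    ext v
    rw [innerSL_apply_apply, PiLp.inner_apply, _root_.sum_apply]
    apply Finset.sum_congr rfl
    intro i _
    simp [mul_comm]
  rw [h1, innerSL_apply_norm, EuclideanSpace.norm_sq_eq]
  apply Finset.sum_congr rfl
  intro i _
  simp

theorem norm_fderiv_sq {ι : Type*} [Fintype ι] (p : MvPolynomial ι ℝ)
    (x : EuclideanSpace ℝ ι) :
    ‖fderiv ℝ (ev p) x‖ ^ 2 = ∑ i, (ev (MvPolynomial.pderiv i p) x) ^ 2 := by
  rw [(ev_hasFDerivAt p x).fderiv, norm_sum_proj]

end A8

open A8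

theorem ev_contDiff {ι : Type*} [Fintype ι] (p : MvPolynomial ι ℝ) (k : ℕ∞) :
    ContDiff ℝ k (ev p) := by
  induction p using MvPolynomial.induction_on with
  | C a =>
    have h1 : ev (MvPolynomial.C a : MvPolynomial ι ℝ) = fun _ => a := by
      funext y
      exact ev_C a y
    rw [h1]
    exact contDiff_const
  | add p q hp hq =>
    have h1 : ev (p + q) = fun y => ev p y + ev q y := by
      funext y
      exact ev_add p q y
    rw [h1]
    exact hp.add hq
  | mul_X p j hp =>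
    have h1 : ev (p * MvPolynomial.X j) = fun y => ev p y * y j := by
      funext y
      rw [ev_mul, ev_X]
    rw [h1]
    exact hp.mul (EuclideanSpace.proj j : EuclideanSpace ℝ ι →L[ℝ] ℝ).contDiff

theorem ev_gr {ι : Type*} [Fintype ι] (p : MvPolynomial ι ℝ) (x : EuclideanSpace ℝ ι) :
    ev (gr p p) x = ‖fderiv ℝ (ev p) x‖ ^ 2 := by
  rw [norm_fderiv_sq]
  unfold gr
  rw [ev_sum]
  apply Finset.sum_congr rfl
  intro i _
  rw [ev_mul, _root_.sq]

namespace A8

/-- row `a` of the gradient -/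
noncomputable def grow {m n : ℕ} (p : MvPolynomial (Fin m × Fin n) ℝ) (x : E m n) (a : Fin m) :
    V n := WithLp.toLp 2 fun j => ev (MvPolynomial.pderiv (a, j) p) x

theorem grow_apply {m n : ℕ} (p : MvPolynomial (Fin m × Fin n) ℝ) (x : E m n) (a : Fin m)
    (j : Fin n) : grow p x a j = ev (MvPolynomial.pderiv (a, j) p) x := rfl

theorem mv_grow {m n : ℕ} (p : MvPolynomial (Fin m × Fin n) ℝ) (x : E m n) (a b : Fin m) :
    mv x (grow p x a) b = ∑ j, x (b, j) * ev (MvPolynomial.pderiv (a, j) p) x := rfl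

/-- a derivation in terms of the partial derivatives -/
theorem deriv_eq_sum {ι : Type*} [Fintype ι]
    (D : Derivation ℝ (MvPolynomial ι ℝ) (MvPolynomial ι ℝ)) (p : MvPolynomial ι ℝ) :
    D p = ∑ i, MvPolynomial.pderiv i p * D (MvPolynomial.X i) := by
  classical
  induction p using MvPolynomial.induction_on with
  | C a =>
    rw [MvPolynomial.derivation_C]
    symm
    apply Finset.sum_eq_zero
    intro i _
    rw [MvPolynomial.pderiv_C, zero_mul]
  | add p q hp hq =>
    rw [map_add, hp, hq, ← Finset.sum_add_distrib]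
    apply Finset.sum_congr rfl
    intro i _
    rw [map_add, add_mul]
  | mul_X p j hp =>
    rw [Derivation.leibniz, hp, smul_eq_mul, smul_eq_mul, Finset.mul_sum]
    have h5 : ∀ i, MvPolynomial.pderiv i (p * MvPolynomial.X j) * D (MvPolynomial.X i) =
        (if j = i then p * D (MvPolynomial.X i) else 0) +
        MvPolynomial.X j * (MvPolynomial.pderiv i p * D (MvPolynomial.X i)) := by
      intro i
      rw [Derivation.leibniz, smul_eq_mul, smul_eq_mul, add_mul, mul_assoc (MvPolynomial.X j)]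
      congr 1
      rw [MvPolynomial.pderiv_X]
      by_cases hij : j = i
      · subst hij
        rw [if_pos rfl, Pi.single_eq_same, mul_one]
      · rw [if_neg hij, Pi.single_eq_of_ne (fun h => hij h), mul_zero, zero_mul]
    rw [Finset.sum_congr rfl (fun i _ => h5 i), Finset.sum_add_distrib, Finset.sum_ite_eq]
    simp

theorem DD_eq {m n : ℕ} (p : MvPolynomial (Fin m × Fin n) ℝ) (a b : Fin m) :
    DD a b p = ∑ j : Fin n, (MvPolynomial.X (b, j) * MvPolynomial.pderiv (a, j) p -
      MvPolynomial.X (a, j) * MvPolynomial.pderiv (b, j) p) := by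
  classical
  rw [deriv_eq_sum, Fintype.sum_prod_type, Finset.sum_comm]
  apply Finset.sum_congr rfl
  intro j _
  unfold DD
  simp only [MvPolynomial.mkDerivation_X, mul_sub, mul_ite, mul_zero, Finset.sum_sub_distrib,
    Finset.sum_ite_eq', Finset.mem_univ, if_true]
  ring

end A8

theorem DD_bound {m n : ℕ} (p : MvPolynomial (Fin m × Fin n) ℝ) (x : E m n) (r : ℝ)
    (hr : 0 ≤ r) (hx : OpLe r x) :
    ∑ a : Fin m, ∑ b, (ev (DD a b p) x) ^ 2 ≤ 4 * r ^ 2 * ‖fderiv ℝ (ev p) x‖ ^ 2 := by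
  classical
  have hD : ∀ a b : Fin m, ev (DD a b p) x = mv x (grow p x a) b - mv x (grow p x b) a := by
    intro a b
    rw [DD_eq, ev_sum, mv_grow, mv_grow, ← Finset.sum_sub_distrib]
    apply Finset.sum_congr rfl
    intro j _
    rw [ev_sub, ev_mul, ev_mul, ev_X, ev_X]
  have hb : ∀ a b : Fin m, (ev (DD a b p) x) ^ 2 ≤
      2 * (mv x (grow p x a) b) ^ 2 + 2 * (mv x (grow p x b) a) ^ 2 := by
    intro a b
    rw [hD]
    nlinarith [sq_nonneg (mv x (grow p x a) b + mv x (grow p x b) a)]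
  have hrow : ∀ a : Fin m, ∑ b, (mv x (grow p x a) b) ^ 2 ≤
      r ^ 2 * ∑ j, (ev (MvPolynomial.pderiv (a, j) p) x) ^ 2 := by
    intro a
    have h1 := hx (grow p x a)
    have h2 : ‖mv x (grow p x a)‖ ^ 2 ≤ (r * ‖grow p x a‖) ^ 2 :=
      pow_le_pow_left₀ (norm_nonneg _) h1 2
    rw [mul_pow, EuclideanSpace.norm_sq_eq, EuclideanSpace.norm_sq_eq] at h2
    simpa [grow_apply, Real.norm_eq_abs, sq_abs] using h2
  have htot : ∑ a, ∑ b, (mv x (grow p x a) b) ^ 2 ≤ r ^ 2 * ‖fderiv ℝ (ev p) x‖ ^ 2 := by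
    rw [norm_fderiv_sq, Fintype.sum_prod_type, Finset.mul_sum]
    exact Finset.sum_le_sum fun a _ => hrow a
  calc ∑ a : Fin m, ∑ b, (ev (DD a b p) x) ^ 2
      ≤ ∑ a : Fin m, ∑ b, (2 * (mv x (grow p x a) b) ^ 2 + 2 * (mv x (grow p x b) a) ^ 2) :=
        Finset.sum_le_sum fun a _ => Finset.sum_le_sum fun b _ => hb a b
    _ = 4 * ∑ a, ∑ b, (mv x (grow p x a) b) ^ 2 := by
        have h1 : ∑ a : Fin m, ∑ b, (mv x (grow p x b) a) ^ 2 =
            ∑ a, ∑ b, (mv x (grow p x a) b) ^ 2 := Finset.sum_comm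
        simp only [Finset.sum_add_distrib, ← Finset.mul_sum]
        rw [h1]
        ring
    _ ≤ 4 * r ^ 2 * ‖fderiv ℝ (ev p) x‖ ^ 2 := by
        nlinarith [htot]

end Pool.Agent.H212R2.KLS
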