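import Pool.Agent.H59.L.S8.H212R2.KLS.Defs
import Pool.Agent.H59.L.S8.H212R2.KLS.T1

/-!
# S1: Bobkov type inequality from Prekopa-Leindler
-/

set_option autoImplicit false

namespace Pool.Agent.H212R2.KLS

open MeasureTheory Set Matrix
open scoped ENNReal InnerProductSpace

/-- Hölder for a function supported on a small set -/
theorem s1_holder {F : Type*} [MeasurableSpace F] (μ : Measure F) (t : ℝ) (ht0 : 0 < t)
    (ht1 : t < 1) (g : F → ℝ) (hg : Measurable g) (hg0 : ∀ x, 0 ≤ g x) :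
    ∫⁻ x, ENNReal.ofReal (g x) ∂μ ≤
      (∫⁻ x, ENNReal.ofReal (g x ^ (1 / (1 - t))) ∂μ) ^ (1 - t) * μ {x | g x ≠ 0} ^ t := by
  have h1t : (0 : ℝ) < 1 - t := by linarith
  have hpq : (1 / (1 - t)).HolderConjugate (1 / t) := by
    rw [Real.holderConjugate_iff]
    constructor
    · rw [lt_div_iff₀ h1t]; linarith
    · field_simp
      ring
  have hS : MeasurableSet {x | g x ≠ 0} := (hg (measurableSet_singleton 0)).compl
  have h := ENNReal.lintegral_mul_le_Lp_mul_Lq μ hpq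
    (f := fun x => ENNReal.ofReal (g x)) (g := {x | g x ≠ 0}.indicator (fun _ => (1 : ℝ≥0∞)))
    hg.ennreal_ofReal.aemeasurable ((measurable_const.indicator hS).aemeasurable)
  have e1 : ∫⁻ x, ENNReal.ofReal (g x) ∂μ =
      ∫⁻ a, ((fun x => ENNReal.ofReal (g x)) *
        {x | g x ≠ 0}.indicator (fun _ => (1 : ℝ≥0∞))) a ∂μ := by
    apply lintegral_congr
    intro x
    simp only [Pi.mul_apply]
    by_cases hx : g x = 0
    · simp [hx]
    · rw [Set.indicator_of_mem (by exact hx), mul_one]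
  rw [e1]
  refine h.trans (le_of_eq ?_)
  have e2 : ∀ x, ENNReal.ofReal (g x) ^ (1 / (1 - t)) = ENNReal.ofReal (g x ^ (1 / (1 - t))) := by
    intro x
    exact ENNReal.ofReal_rpow_of_nonneg (hg0 x) (by positivity)
  have e3 : ∀ x, ({x | g x ≠ 0}.indicator (fun _ => (1 : ℝ≥0∞)) x) ^ (1 / t) =
      {x | g x ≠ 0}.indicator (fun _ => (1 : ℝ≥0∞)) x := by
    intro x
    by_cases hx : x ∈ {x | g x ≠ 0}
    · rw [Set.indicator_of_mem hx, ENNReal.one_rpow]
    · rw [Set.indicator_of_notMem hx, ENNReal.zero_rpow_of_pos (by positivity)]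
  simp only [e2, e3]
  rw [lintegral_indicator_const hS, one_mul, one_div_one_div, one_div_one_div]

theorem s1_step {F : Type*} [NormedAddCommGroup F] [NormedSpace ℝ F]
    [MeasurableSpace F] [BorelSpace F] (ν : Measure F) (ρ : F → ℝ)
    (hρ0 : ∀ x, 0 ≤ ρ x) (hρm : Measurable ρ)
    (hlc : ∀ x y : F, ∀ t : ℝ, 0 < t → t < 1 →
      ρ x ^ (1 - t) * ρ y ^ t ≤ ρ ((1 - t) • x + t • y))
    (μ : Measure F) (hμ : μ = ν.withDensity fun x => ENNReal.ofReal (ρ x))
    (R r t : ℝ) (hR : ∀ x, R < ‖x‖ → ρ x = 0) (ht0 : 0 < t) (ht1 : t < 1)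
    (g c : F → ℝ) (hg : Measurable g) (hc : Measurable c) (hg0 : ∀ x, 0 ≤ g x)
    (hG : ∀ x y : F, ‖x‖ ≤ R → ‖y‖ ≤ r →
      g x ≤ g ((1 - t)⁻¹ • ((1 - t) • x + t • y)) + c ((1 - t) • x + t • y))
    (hPL : ∀ f g h : F → ℝ≥0∞, Measurable f → Measurable g → Measurable h →
      (∀ x y, f x ^ (1 - t) * g y ^ t ≤ h ((1 - t) • x + t • y)) →
      (∫⁻ x, f x ∂ν) ^ (1 - t) * (∫⁻ x, g x ∂ν) ^ t ≤ ∫⁻ x, h x ∂ν) :
    (∫⁻ x, ENNReal.ofReal (g x) ∂μ) * μ (Metric.closedBall 0 r) ^ t ≤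
      μ {x | g x ≠ 0} ^ t * ∫⁻ z, ENNReal.ofReal (g ((1 - t)⁻¹ • z) + c z) ∂μ := by
  have h1t : (0 : ℝ) < 1 - t := by linarith
  have hρE : Measurable fun x => ENNReal.ofReal (ρ x) := hρm.ennreal_ofReal
  have key := hPL (fun x => ENNReal.ofReal (ρ x) * ENNReal.ofReal (g x ^ (1 / (1 - t))))
    ((Metric.closedBall (0 : F) r).indicator (fun y => ENNReal.ofReal (ρ y)))
    (fun z => ENNReal.ofReal (ρ z) * ENNReal.ofReal (g ((1 - t)⁻¹ • z) + c z))
    (hρE.mul (hg.pow_const _).ennreal_ofReal)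
    (hρE.indicator Metric.isClosed_closedBall.measurableSet)
    (hρE.mul ((hg.comp (measurable_const_smul _)).add hc).ennreal_ofReal) ?_
  · -- use key
    have m1 : Measurable fun x => ENNReal.ofReal (g x ^ (1 / (1 - t))) :=
      (hg.pow_const _).ennreal_ofReal
    have m2 : Measurable fun z => ENNReal.ofReal (g ((1 - t)⁻¹ • z) + c z) :=
      ((hg.comp (measurable_const_smul _)).add hc).ennreal_ofReal
    have i1 : ∫⁻ x, ENNReal.ofReal (ρ x) * ENNReal.ofReal (g x ^ (1 / (1 - t))) ∂ν =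
        ∫⁻ x, ENNReal.ofReal (g x ^ (1 / (1 - t))) ∂μ := by
      rw [hμ, lintegral_withDensity_eq_lintegral_mul ν hρE m1]
      rfl
    have i2 : ∫⁻ x, (Metric.closedBall (0 : F) r).indicator (fun y => ENNReal.ofReal (ρ y)) x ∂ν =
        μ (Metric.closedBall 0 r) := by
      rw [hμ, withDensity_apply _ Metric.isClosed_closedBall.measurableSet,
        lintegral_indicator Metric.isClosed_closedBall.measurableSet]
    have i3 : ∫⁻ z, ENNReal.ofReal (ρ z) * ENNReal.ofReal (g ((1 - t)⁻¹ • z) + c z) ∂ν =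
        ∫⁻ z, ENNReal.ofReal (g ((1 - t)⁻¹ • z) + c z) ∂μ := by
      rw [hμ, lintegral_withDensity_eq_lintegral_mul ν hρE m2]
      rfl
    rw [i1, i2, i3] at key
    calc (∫⁻ x, ENNReal.ofReal (g x) ∂μ) * μ (Metric.closedBall 0 r) ^ t
        ≤ ((∫⁻ x, ENNReal.ofReal (g x ^ (1 / (1 - t))) ∂μ) ^ (1 - t) * μ {x | g x ≠ 0} ^ t) *
            μ (Metric.closedBall 0 r) ^ t := by
          gcongr
          exact s1_holder μ t ht0 ht1 g hg hg0
      _ = μ {x | g x ≠ 0} ^ t * ((∫⁻ x, ENNReal.ofReal (g x ^ (1 / (1 - t))) ∂μ) ^ (1 - t) *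
            μ (Metric.closedBall 0 r) ^ t) := by ring
      _ ≤ _ := by gcongr
  · intro x y
    by_cases hy : y ∈ Metric.closedBall (0 : F) r
    · rw [Set.indicator_of_mem hy]
      by_cases hx0 : ρ x = 0
      · simp only [hx0, ENNReal.ofReal_zero, zero_mul]
        rw [ENNReal.zero_rpow_of_pos h1t, zero_mul]
        exact zero_le
      · have hx : ‖x‖ ≤ R := by
          by_contra h
          exact hx0 (hR x (not_le.1 h))
        have hy' : ‖y‖ ≤ r := by simpa using hy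
        rw [ENNReal.mul_rpow_of_nonneg _ _ h1t.le,
          ENNReal.ofReal_rpow_of_nonneg (hρ0 x) h1t.le,
          ENNReal.ofReal_rpow_of_nonneg (hρ0 y) ht0.le,
          ENNReal.ofReal_rpow_of_nonneg (Real.rpow_nonneg (hg0 x) _) h1t.le,
          ← Real.rpow_mul (hg0 x), one_div_mul_cancel h1t.ne', Real.rpow_one]
        calc ENNReal.ofReal (ρ x ^ (1 - t)) * ENNReal.ofReal (g x) * ENNReal.ofReal (ρ y ^ t)
            = ENNReal.ofReal (ρ x ^ (1 - t) * ρ y ^ t) * ENNReal.ofReal (g x) := by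
              rw [ENNReal.ofReal_mul (Real.rpow_nonneg (hρ0 x) _)]
              ring
          _ ≤ _ := by
              gcongr
              · exact hlc x y t ht0 ht1
              · exact hG x y hx hy'
    · rw [Set.indicator_of_notMem hy, ENNReal.zero_rpow_of_pos ht0, mul_zero]
      exact zero_le

/-- the Prekopa-Leindler inequality for one measure, as a proposition -/
def S1PL {F : Type*} [NormedAddCommGroup F] [NormedSpace ℝ F] [MeasurableSpace F]
    (ν : Measure F) : Prop :=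
  ∀ t : ℝ, 0 < t → t < 1 → ∀ f g h : F → ℝ≥0∞, Measurable f → Measurable g → Measurable h →
    (∀ x y, f x ^ (1 - t) * g y ^ t ≤ h ((1 - t) • x + t • y)) →
    (∫⁻ x, f x ∂ν) ^ (1 - t) * (∫⁻ x, g x ∂ν) ^ t ≤ ∫⁻ x, h x ∂ν

/-- the uniform first order estimate -/
theorem s1_local {F : Type*} [NormedAddCommGroup F] [InnerProductSpace ℝ F]
    [FiniteDimensional ℝ F] (f : F → ℝ) (hf : ContDiff ℝ 1 f) (R r : ℝ) (hR : 0 ≤ R) (hr : 0 < r)
    (η : ℝ) (hη : 0 < η) : ∃ t₀ : ℝ, 0 < t₀ ∧ t₀ ≤ 1 / 2 ∧ ∀ t : ℝ, 0 < t → t < t₀ →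
    ∀ x y : F, ‖x‖ ≤ R → ‖y‖ ≤ r →
      |f x - f ((1 - t)⁻¹ • ((1 - t) • x + t • y))| ≤
        (‖fderiv ℝ f ((1 - t) • x + t • y)‖ + η) * (t * r / (1 - t)) := by
  have hcf : Continuous (fderiv ℝ f) := hf.continuous_fderiv one_ne_zero
  have huc : UniformContinuousOn (fderiv ℝ f) (Metric.closedBall (0 : F) (2 * (R + r))) :=
    (isCompact_closedBall _ _).uniformContinuousOn_of_continuous hcf.continuousOn
  rw [Metric.uniformContinuousOn_iff] at huc
  obtain ⟨δ, hδ, hδ'⟩ := huc η hη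
  have hRr : 0 < R + r := by linarith
  refine ⟨min (1 / 2) (δ / (2 * (R + r))), by positivity, min_le_left _ _, ?_⟩
  intro t ht ht' x y hx hy
  have ht2 : t < 1 / 2 := lt_of_lt_of_le ht' (min_le_left _ _)
  have htδ : t * (2 * (R + r)) < δ := by
    have := lt_of_lt_of_le ht' (min_le_right _ _)
    rwa [lt_div_iff₀ (by positivity)] at this
  have h1t : (0 : ℝ) < 1 - t := by linarith
  set z : F := (1 - t) • x + t • y with hz
  have hw : (1 - t)⁻¹ • z = x + (t / (1 - t)) • y := by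
    rw [hz, smul_add, smul_smul, smul_smul, inv_mul_cancel₀ h1t.ne', one_smul]
    congr 2
    field_simp
  have hzn : ‖z‖ ≤ R + r := by
    rw [hz]
    refine (norm_add_le _ _).trans ?_
    rw [norm_smul, norm_smul, Real.norm_of_nonneg h1t.le, Real.norm_of_nonneg ht.le]
    nlinarith [norm_nonneg x, norm_nonneg y]
  have htt : t / (1 - t) ≤ 2 * t := by
    rw [div_le_iff₀ h1t]; nlinarith
  have htt0 : 0 ≤ t / (1 - t) := by positivity
  -- points of the ball around z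
  have hxz : ‖x - z‖ ≤ t * (2 * (R + r)) := by
    have : x - z = t • (x - y) := by
      rw [hz, smul_sub, sub_smul, one_smul]; abel
    rw [this, norm_smul, Real.norm_of_nonneg ht.le]
    have := norm_sub_le x y
    nlinarith
  have hwz : ‖(1 - t)⁻¹ • z - z‖ ≤ t * (2 * (R + r)) := by
    have : (1 - t)⁻¹ • z - z = (t / (1 - t)) • z := by
      have : (1 - t)⁻¹ • z - z = ((1 - t)⁻¹ - 1) • z := by rw [sub_smul, one_smul]
      rw [this]
      congr 1
      field_simp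
      ring
    rw [this, norm_smul, Real.norm_of_nonneg htt0]
    calc t / (1 - t) * ‖z‖ ≤ (2 * t) * (R + r) := by gcongr
      _ = _ := by ring
  have hconv : Convex ℝ (Metric.closedBall z (t * (2 * (R + r)))) := convex_closedBall _ _
  have hxm : x ∈ Metric.closedBall z (t * (2 * (R + r))) := by
    rw [mem_closedBall_iff_norm]; exact hxz
  have hwm : (1 - t)⁻¹ • z ∈ Metric.closedBall z (t * (2 * (R + r))) := by
    rw [mem_closedBall_iff_norm]; exact hwz
  have hbound : ∀ w ∈ Metric.closedBall z (t * (2 * (R + r))),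
      ‖fderiv ℝ f w‖ ≤ ‖fderiv ℝ f z‖ + η := by
    intro w hw
    rw [mem_closedBall_iff_norm] at hw
    have hwn : ‖w‖ ≤ 2 * (R + r) := by
      have h1 : ‖w‖ ≤ ‖w - z‖ + ‖z‖ := by
        have := norm_add_le (w - z) z
        simpa using this
      nlinarith
    have h := hδ' w (by simpa using hwn) z (by
      have : ‖z‖ ≤ 2 * (R + r) := by linarith
      simpa using this) (by rw [dist_eq_norm]; linarith)
    rw [dist_eq_norm] at h
    have h2 := norm_add_le (fderiv ℝ f w - fderiv ℝ f z) (fderiv ℝ f z)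
    rw [sub_add_cancel] at h2
    linarith
  have hmv := hconv.norm_image_sub_le_of_norm_fderiv_le (𝕜 := ℝ) (f := f)
    (fun w _ => (hf.differentiable one_ne_zero) w) hbound hwm hxm
  rw [Real.norm_eq_abs] at hmv
  refine hmv.trans ?_
  gcongr
  have : x - (1 - t)⁻¹ • z = - ((t / (1 - t)) • y) := by rw [hw]; abel
  rw [this, norm_neg, norm_smul, Real.norm_of_nonneg htt0]
  calc t / (1 - t) * ‖y‖ ≤ t / (1 - t) * r := by gcongr
    _ = _ := by ring

theorem s1_ineq {F : Type*} [NormedAddCommGroup F] [InnerProductSpace ℝ F]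
    [FiniteDimensional ℝ F] [MeasurableSpace F] [BorelSpace F] (ν : Measure F)
    (ρ : F → ℝ) (hρ0 : ∀ x, 0 ≤ ρ x) (hρm : Measurable ρ)
    (hlc : ∀ x y : F, ∀ t : ℝ, 0 < t → t < 1 →
      ρ x ^ (1 - t) * ρ y ^ t ≤ ρ ((1 - t) • x + t • y)) (R : ℝ) (hR0 : 0 ≤ R)
    (hR : ∀ x, R < ‖x‖ → ρ x = 0)
    (μ : Measure F) (hμ : μ = ν.withDensity fun x => ENNReal.ofReal (ρ x)) (h1 : μ univ = 1)
    (f : F → ℝ) (hf : ContDiff ℝ 1 f) (hf0 : ∀ x, 0 ≤ f x) (hf1 : ∀ x, f x ≤ 1)
    (hfs : μ {x | f x ≠ 0} ≠ 0) (r : ℝ) (hr : 0 < r) (hBr : μ (Metric.closedBall 0 r) ≠ 0)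
    (hPL : S1PL ν) (η : ℝ) (hη : 0 < η) : ∃ t₀ : ℝ, 0 < t₀ ∧ t₀ ≤ 1 / 2 ∧ ∀ t : ℝ,
    0 < t → t < t₀ →
    Real.log (1 / (μ {x | f x ≠ 0}).toReal) * ∫ x, f x ∂μ +
      Real.log (μ (Metric.closedBall 0 r)).toReal ≤
        2 * (r / (1 - t)) * (∫ x, ‖fderiv ℝ f x‖ ∂μ + η) := by
  obtain ⟨t₀, ht₀, ht₀', hloc⟩ := s1_local f hf R r hR0 hr η hη
  refine ⟨t₀, ht₀, ht₀', ?_⟩
  intro t ht htt
  have h1t : (0 : ℝ) < 1 - t := by linarith
  have ht1 : t < 1 := by linarith
  have : IsProbabilityMeasure μ := ⟨h1⟩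
  have hfc : Continuous f := hf.continuous
  have hfm : Measurable f := hfc.measurable
  have hcd : Continuous (fun x => ‖fderiv ℝ f x‖) := (hf.continuous_fderiv one_ne_zero).norm
  set c : F → ℝ := fun z => (‖fderiv ℝ f z‖ + η) * (t * r / (1 - t)) with hc
  have hcm : Measurable c := ((hcd.add continuous_const).mul continuous_const).measurable
  have hc0 : ∀ z, 0 ≤ c z := fun z => by rw [hc]; positivity
  -- the measure lives on the ball
  have hae : ∀ᵐ x ∂μ, x ∈ Metric.closedBall (0 : F) R := by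
    rw [hμ, ae_withDensity_iff hρm.ennreal_ofReal]
    refine Filter.Eventually.of_forall ?_
    intro x hx
    by_contra hxR
    apply hx
    rw [hR x (by simpa using hxR), ENNReal.ofReal_zero]
  have hdint : Integrable (fun x => ‖fderiv ℝ f x‖) μ := by
    obtain ⟨C, hC⟩ := (isCompact_closedBall (0 : F) R).exists_bound_of_continuousOn
      hcd.continuousOn
    refine Integrable.of_bound hcd.aestronglyMeasurable C ?_
    filter_upwards [hae] with x hx
    exact hC x hx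
  have hcint : Integrable c μ := (hdint.add (integrable_const η)).mul_const _
  have hfint : Integrable f μ := by
    refine Integrable.of_bound hfc.aestronglyMeasurable 1 ?_
    refine Filter.Eventually.of_forall ?_
    intro x
    rw [Real.norm_of_nonneg (hf0 x)]
    exact hf1 x
  have hfsc : Continuous (fun z : F => f ((1 - t)⁻¹ • z)) := hfc.comp (continuous_const_smul _)
  have hfsint : Integrable (fun z : F => f ((1 - t)⁻¹ • z)) μ := by
    refine Integrable.of_bound hfsc.aestronglyMeasurable 1 ?_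
    refine Filter.Eventually.of_forall ?_
    intro x
    rw [Real.norm_of_nonneg (hf0 _)]
    exact hf1 _
  have hi1 : Integrable (fun z => f ((1 - t)⁻¹ • z) + c z) μ := hfsint.add hcint
  have hi2 : Integrable (fun x => 1 - f x) μ := (integrable_const 1).sub hfint
  have hi2' : Integrable (fun z => 1 - f ((1 - t)⁻¹ • z)) μ := (integrable_const 1).sub hfsint
  have hi3 : Integrable (fun z => 1 - f ((1 - t)⁻¹ • z) + c z) μ := hi2'.add hcint
  have hn2 : ∀ x, 0 ≤ 1 - f x := fun x => by linarith [hf1 x]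
  have hn3 : ∀ z, 0 ≤ 1 - f ((1 - t)⁻¹ • z) + c z :=
    fun z => add_nonneg (hn2 _) (hc0 z)
  have hn1 : ∀ z, 0 ≤ f ((1 - t)⁻¹ • z) + c z := fun z => add_nonneg (hf0 _) (hc0 z)
  -- the two applications
  have hA := s1_step ν ρ hρ0 hρm hlc μ hμ R r t hR ht ht1 f c hfm hcm hf0 (by
    intro x y hx hy
    have := (abs_le.1 (hloc t ht htt x y hx hy)).2
    rw [hc]; linarith) (hPL t ht ht1)
  have hB := s1_step ν ρ hρ0 hρm hlc μ hμ R r t hR ht ht1 (fun x => 1 - f x) c
    (measurable_const.sub hfm) hcm (fun x => by linarith [hf1 x]) (by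
    intro x y hx hy
    have := (abs_le.1 (hloc t ht htt x y hx hy)).1
    rw [hc]; linarith) (hPL t ht ht1)
  set m0 : ℝ := (μ {x | f x ≠ 0}).toReal with hm0
  set b : ℝ := (μ (Metric.closedBall 0 r)).toReal with hb
  have hm0pos : 0 < m0 := ENNReal.toReal_pos hfs (measure_ne_top μ _)
  have hbpos : 0 < b := ENNReal.toReal_pos hBr (measure_ne_top μ _)
  have hA' : (∫ x, f x ∂μ) * b ^ t ≤ m0 ^ t * (∫ z, (f ((1 - t)⁻¹ • z) + c z) ∂μ) := by
    rw [← ofReal_integral_eq_lintegral_ofReal hfint (Filter.Eventually.of_forall hf0),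
      ← ofReal_integral_eq_lintegral_ofReal hi1 (Filter.Eventually.of_forall hn1)] at hA
    have := ENNReal.toReal_mono (by
      apply ENNReal.mul_ne_top
      · exact ENNReal.rpow_ne_top_of_nonneg ht.le (measure_ne_top μ _)
      · exact ENNReal.ofReal_ne_top) hA
    rw [ENNReal.toReal_mul, ENNReal.toReal_mul, ← ENNReal.toReal_rpow, ← ENNReal.toReal_rpow,
      ENNReal.toReal_ofReal (integral_nonneg hf0),
      ENNReal.toReal_ofReal (integral_nonneg hn1)] at this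
    exact this
  have hB' : (∫ x, (1 - f x) ∂μ) * b ^ t ≤ ∫ z, ((1 - f ((1 - t)⁻¹ • z)) + c z) ∂μ := by
    rw [← ofReal_integral_eq_lintegral_ofReal hi2 (Filter.Eventually.of_forall hn2),
      ← ofReal_integral_eq_lintegral_ofReal hi3 (Filter.Eventually.of_forall hn3)] at hB
    have hle : μ {x | (fun x => 1 - f x) x ≠ 0} ^ t ≤ 1 := by
      apply ENNReal.rpow_le_one _ ht.le
      exact prob_le_one
    have hB2 := hB.trans (mul_le_mul_left hle _)
    rw [one_mul] at hB2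
    have := ENNReal.toReal_mono ENNReal.ofReal_ne_top hB2
    rw [ENNReal.toReal_mul, ← ENNReal.toReal_rpow,
      ENNReal.toReal_ofReal (integral_nonneg hn2),
      ENNReal.toReal_ofReal (integral_nonneg hn3)] at this
    exact this
  rw [integral_add hfsint hcint] at hA'
  rw [integral_add hi2' hcint,
    integral_sub (integrable_const 1) hfsint, integral_sub (integrable_const 1) hfint] at hB'
  have hone : ∫ _x : F, (1 : ℝ) ∂μ = 1 := by simp
  rw [hone] at hB'
  set a : ℝ := ∫ x, f x ∂μ with ha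
  set S : ℝ := ∫ z, f ((1 - t)⁻¹ • z) ∂μ with hS
  set K : ℝ := ∫ z, c z ∂μ with hK
  have hKval : K = (∫ x, ‖fderiv ℝ f x‖ ∂μ + η) * (t * r / (1 - t)) := by
    rw [hK, hc, integral_mul_const, integral_add hdint (integrable_const η)]
    simp
  have ha0 : 0 ≤ a := integral_nonneg hf0
  have ha1 : a ≤ 1 := by
    rw [← hone]
    exact integral_mono hfint (integrable_const 1) hf1
  -- x^t ≥ 1 + t log x
  have hpow : ∀ x : ℝ, 0 < x → 1 + t * Real.log x ≤ x ^ t := by
    intro x hx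
    rw [Real.rpow_def_of_pos hx]
    have := Real.add_one_le_exp (Real.log x * t)
    linarith
  have hmt : 0 < m0 ^ t := Real.rpow_pos_of_pos hm0pos t
  have hA2 : a * (b / m0) ^ t ≤ S + K := by
    rw [Real.div_rpow hbpos.le hm0pos.le, ← mul_div_assoc, div_le_iff₀ hmt]
    linarith
  have hsum : a * (b / m0) ^ t + (1 - a) * b ^ t ≤ 1 + 2 * K := by linarith
  have hp1 := hpow (b / m0) (by positivity)
  have hp2 := hpow b hbpos
  have hlog : Real.log (b / m0) = Real.log b - Real.log m0 := Real.log_div hbpos.ne' hm0pos.ne'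
  have hlog1 : Real.log (1 / m0) = - Real.log m0 := by rw [one_div, Real.log_inv]
  have h3 : a * (1 + t * Real.log (b / m0)) + (1 - a) * (1 + t * Real.log b) ≤ 1 + 2 * K := by
    have e1 := mul_le_mul_of_nonneg_left hp1 ha0
    have e2 := mul_le_mul_of_nonneg_left hp2 (by linarith : (0 : ℝ) ≤ 1 - a)
    linarith
  rw [hlog] at h3
  rw [hlog1]
  have h4 : t * (-Real.log m0 * a + Real.log b) ≤ t * (2 * (r / (1 - t)) *
      (∫ x, ‖fderiv ℝ f x‖ ∂μ + η)) := by
    have : 2 * K = t * (2 * (r / (1 - t)) * (∫ x, ‖fderiv ℝ f x‖ ∂μ + η)) := by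
      rw [hKval]; field_simp
    rw [← this]
    nlinarith
  exact le_of_mul_le_mul_left h4 ht

theorem small_l1_of {F : Type*} [NormedAddCommGroup F] [InnerProductSpace ℝ F]
    [FiniteDimensional ℝ F] [MeasurableSpace F] [BorelSpace F] (ν : Measure F)
    (hPL : S1PL ν) (ρ : F → ℝ) (hρ0 : ∀ x, 0 ≤ ρ x) (hρm : Measurable ρ)
    (hlc : ∀ x y : F, ∀ t : ℝ, 0 < t → t < 1 →
      ρ x ^ (1 - t) * ρ y ^ t ≤ ρ ((1 - t) • x + t • y)) (hb : Bdd ρ)
    (μ : Measure F) (hμ : μ = ν.withDensity fun x => ENNReal.ofReal (ρ x)) (h1 : μ univ = 1)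
    (f : F → ℝ) (hf : ContDiff ℝ 1 f) (hf0 : ∀ x, 0 ≤ f x) (hf1 : ∀ x, f x ≤ 1)
    (hfs : μ {x | f x ≠ 0} ≠ 0) (r : ℝ) (hr : 0 < r) (hBr : μ (Metric.closedBall 0 r) ≠ 0) :
    Real.log (1 / (μ {x | f x ≠ 0}).toReal) * ∫ x, f x ∂μ +
      Real.log (μ (Metric.closedBall 0 r)).toReal ≤ 2 * r * ∫ x, ‖fderiv ℝ f x‖ ∂μ := by
  obtain ⟨R, hR⟩ := hb
  have hmain := fun η (hη : 0 < η) => s1_ineq ν ρ hρ0 hρm hlc (max R 0) (le_max_right _ _)
    (fun x hx => hR x (lt_of_le_of_lt (le_max_left _ _) hx)) μ hμ h1 f hf hf0 hf1 hfs r hr hBr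
    hPL η hη
  set X : ℝ := Real.log (1 / (μ {x | f x ≠ 0}).toReal) * ∫ x, f x ∂μ +
      Real.log (μ (Metric.closedBall 0 r)).toReal with hX
  set Y : ℝ := ∫ x, ‖fderiv ℝ f x‖ ∂μ with hY
  have hY0 : 0 ≤ Y := integral_nonneg (fun x => norm_nonneg _)
  have h2 : ∀ η : ℝ, 0 < η → X ≤ 2 * r * (Y + η) := by
    intro η hη
    obtain ⟨t₀, ht₀, ht₀', h⟩ := hmain η hη
    by_contra hcon
    rw [not_le] at hcon
    have hXpos : 0 < X := lt_trans (by positivity) hcon
    set t : ℝ := min (t₀ / 2) ((X - 2 * r * (Y + η)) / (2 * X)) with ht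
    have htpos : 0 < t := by
      rw [ht]
      apply lt_min (by linarith)
      apply div_pos (by linarith) (by linarith)
    have htt : t < t₀ := lt_of_le_of_lt (min_le_left _ _) (by linarith)
    have h3 := h t htpos htt
    have h1t : (0 : ℝ) < 1 - t := by linarith
    have h4 : (1 - t) * X ≤ 2 * r * (Y + η) := by
      have e : 2 * (r / (1 - t)) * (Y + η) = (2 * r * (Y + η)) / (1 - t) := by
        field_simp
      rw [e, le_div_iff₀ h1t] at h3
      linarith
    have h5 : t * X ≤ (X - 2 * r * (Y + η)) / 2 := by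
      have := min_le_right (t₀ / 2) ((X - 2 * r * (Y + η)) / (2 * X))
      rw [← ht, le_div_iff₀ (by linarith)] at this
      linarith
    nlinarith
  refine le_of_forall_pos_le_add ?_
  intro ε hε
  have h3 := h2 (ε / (2 * r)) (by positivity)
  have : 2 * r * (Y + ε / (2 * r)) = 2 * r * Y + ε := by field_simp
  linarith

theorem small_l1 {F : Type*} [NormedAddCommGroup F] [InnerProductSpace ℝ F]
    [FiniteDimensional ℝ F] [MeasurableSpace F] [BorelSpace F] (ν : Measure F)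
    [ν.IsAddHaarMeasure] (ρ : F → ℝ) (hρ0 : ∀ x, 0 ≤ ρ x) (hρm : Measurable ρ)
    (hlc : ∀ x y : F, ∀ t : ℝ, 0 < t → t < 1 →
      ρ x ^ (1 - t) * ρ y ^ t ≤ ρ ((1 - t) • x + t • y)) (hb : Bdd ρ)
    (μ : Measure F) (hμ : μ = ν.withDensity fun x => ENNReal.ofReal (ρ x)) (h1 : μ univ = 1)
    (f : F → ℝ) (hf : ContDiff ℝ 1 f) (hf0 : ∀ x, 0 ≤ f x) (hf1 : ∀ x, f x ≤ 1)
    (hfs : μ {x | f x ≠ 0} ≠ 0) (r : ℝ) (hr : 0 < r) (hBr : μ (Metric.closedBall 0 r) ≠ 0) :
    Real.log (1 / (μ {x | f x ≠ 0}).toReal) * ∫ x, f x ∂μ +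
      Real.log (μ (Metric.closedBall 0 r)).toReal ≤ 2 * r * ∫ x, ‖fderiv ℝ f x‖ ∂μ :=
  small_l1_of ν (fun t ht0 ht1 f g h hf hg hh H => PL ν t ht0 ht1 f g h hf hg hh H)
    ρ hρ0 hρm hlc hb μ hμ h1 f hf hf0 hf1 hfs r hr hBr

end Pool.Agent.H212R2.KLS
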