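import Pool.Agent.H59.L.S8.H212R2.KLS.Defs

/-!
# S2: dyadic truncation
-/

set_option autoImplicit false

namespace Pool.Agent.H212R2.KLS

open MeasureTheory Set
open scoped ENNReal

/-- the cutoff: `0` for `x ≤ 1`, `1` for `x ≥ 4` -/
noncomputable def S2psi (x : ℝ) : ℝ := Real.smoothTransition ((x - 1) / 3)

theorem S2psi_contDiff : ContDiff ℝ 1 S2psi :=
  (Real.smoothTransition.contDiff (n := 1)).comp
    ((contDiff_id.sub contDiff_const).div_const _)

theorem S2psi_nonneg (x : ℝ) : 0 ≤ S2psi x := Real.smoothTransition.nonneg _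

theorem S2psi_le_one (x : ℝ) : S2psi x ≤ 1 := Real.smoothTransition.le_one _

theorem S2psi_zero {x : ℝ} (h : x ≤ 1) : S2psi x = 0 :=
  Real.smoothTransition.zero_of_nonpos (by linarith)

theorem S2psi_one {x : ℝ} (h : 4 ≤ x) : S2psi x = 1 :=
  Real.smoothTransition.one_of_one_le (by linarith)

theorem S2psi_deriv_low {x : ℝ} (h : x ≤ 1) : deriv S2psi x = 0 := by
  apply IsLocalMin.deriv_eq_zero
  refine Filter.Eventually.of_forall fun y => ?_
  show S2psi x ≤ S2psi y
  rw [S2psi_zero h]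
  exact S2psi_nonneg y

theorem S2psi_deriv_high {x : ℝ} (h : 4 ≤ x) : deriv S2psi x = 0 := by
  apply IsLocalMax.deriv_eq_zero
  refine Filter.Eventually.of_forall fun y => ?_
  show S2psi y ≤ S2psi x
  rw [S2psi_one h]
  exact S2psi_le_one y

theorem S2psi_deriv_bdd : ∃ K : ℝ, 0 < K ∧ ∀ x, |deriv S2psi x| ≤ K := by
  have hc : Continuous (deriv S2psi) := S2psi_contDiff.continuous_deriv le_rfl
  obtain ⟨K, hK⟩ := (isCompact_Icc (a := (1 : ℝ)) (b := 4)).exists_bound_of_continuousOn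
    hc.continuousOn
  refine ⟨max K 1, lt_max_of_lt_right one_pos, fun x => ?_⟩
  by_cases h1 : x ≤ 1
  · rw [S2psi_deriv_low h1, abs_zero]
    exact (zero_le_one).trans (le_max_right _ _)
  by_cases h4 : 4 ≤ x
  · rw [S2psi_deriv_high h4, abs_zero]
    exact (zero_le_one).trans (le_max_right _ _)
  push Not at h1 h4
  exact (hK x ⟨h1.le, h4.le⟩).trans (le_max_left _ _)

section
variable {F : Type} [NormedAddCommGroup F] [InnerProductSpace ℝ F] [FiniteDimensional ℝ F]
  [MeasurableSpace F] [BorelSpace F]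

/-- the truncation -/
noncomputable def S2f (g : F → ℝ) (t : ℝ) (x : F) : ℝ := S2psi (g x ^ 2 / t ^ 2)

omit [FiniteDimensional ℝ F] [MeasurableSpace F] [BorelSpace F] in
theorem S2f_contDiff {g : F → ℝ} (hg : ContDiff ℝ 1 g) (t : ℝ) : ContDiff ℝ 1 (S2f g t) :=
  S2psi_contDiff.comp ((hg.pow 2).div_const _)

omit [InnerProductSpace ℝ F] [FiniteDimensional ℝ F] [MeasurableSpace F] [BorelSpace F]
  [NormedAddCommGroup F] in
theorem S2f_zero {g : F → ℝ} {t : ℝ} (ht : 0 < t) {x : F} (h : |g x| ≤ t) : S2f g t x = 0 := by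
  apply S2psi_zero
  rw [div_le_one (by positivity), ← sq_abs (g x)]
  exact pow_le_pow_left₀ (abs_nonneg _) h 2

omit [InnerProductSpace ℝ F] [FiniteDimensional ℝ F] [MeasurableSpace F] [BorelSpace F]
  [NormedAddCommGroup F] in
theorem S2f_one {g : F → ℝ} {t : ℝ} (ht : 0 < t) {x : F} (h : 2 * t ≤ |g x|) :
    S2f g t x = 1 := by
  apply S2psi_one
  rw [le_div_iff₀ (by positivity), ← sq_abs (g x)]
  have := pow_le_pow_left₀ (by positivity) h 2
  linarith

omit [FiniteDimensional ℝ F] [MeasurableSpace F] [BorelSpace F] in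
theorem S2f_fderiv {g : F → ℝ} (hg : ContDiff ℝ 1 g) (t : ℝ) (x : F) :
    ‖fderiv ℝ (S2f g t) x‖ =
      |deriv S2psi (g x ^ 2 / t ^ 2)| * (2 / t ^ 2 * (|g x| * ‖fderiv ℝ g x‖)) := by
  have h1 : HasFDerivAt g (fderiv ℝ g x) x :=
    (hg.differentiable (by norm_num) x).hasFDerivAt
  have h2 : HasFDerivAt (fun y => g y ^ 2 / t ^ 2) ((2 * g x / t ^ 2) • fderiv ℝ g x) x := by
    have h3 := (h1.pow 2).mul_const (1 / t ^ 2)
    refine HasFDerivAt.congr_fderiv (h3.congr_of_eventuallyEq ?_) ?_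
    · exact Filter.Eventually.of_forall fun y => by ring
    · ext v
      simp
      ring
  have h3 : HasDerivAt S2psi (deriv S2psi (g x ^ 2 / t ^ 2)) (g x ^ 2 / t ^ 2) :=
    (S2psi_contDiff.differentiable (by norm_num) _).hasDerivAt
  have h4 := (h3.comp_hasFDerivAt x h2).fderiv
  have h5 : fderiv ℝ (S2f g t) x = deriv S2psi (g x ^ 2 / t ^ 2) •
      ((2 * g x / t ^ 2) • fderiv ℝ g x) := h4
  rw [h5, norm_smul, norm_smul, Real.norm_eq_abs, Real.norm_eq_abs, abs_div, abs_mul,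
    abs_of_nonneg (by positivity : (0 : ℝ) ≤ t ^ 2), abs_of_nonneg (by norm_num : (0 : ℝ) ≤ 2)]
  ring

theorem S2_integrable (μ : Measure F) [IsProbabilityMeasure μ]
    (hR : ∃ R, μ (Metric.closedBall 0 R)ᶜ = 0) {h : F → ℝ} (hh : Continuous h) :
    Integrable h μ := by
  obtain ⟨R, hR⟩ := hR
  have h1 : μ.restrict (Metric.closedBall 0 R) = μ :=
    Measure.restrict_eq_self_of_ae_mem (by rw [← compl_mem_ae_iff, compl_compl] at hR; exact hR)
  have h2 : IntegrableOn h (Metric.closedBall 0 R) μ :=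
    hh.continuousOn.integrableOn_compact (isCompact_closedBall _ _)
  rw [IntegrableOn, h1] at h2
  exact h2

theorem S2_key (μ : Measure F) [IsProbabilityMeasure μ]
    (hR : ∃ R, μ (Metric.closedBall 0 R)ᶜ = 0)
    (hS1 : ∀ f : F → ℝ, ContDiff ℝ 1 f → (∀ x, 0 ≤ f x) → (∀ x, f x ≤ 1) →
      μ {x | f x ≠ 0} ≠ 0 → ∀ r : ℝ, 0 < r → μ (Metric.closedBall 0 r) ≠ 0 →
      Real.log (1 / (μ {x | f x ≠ 0}).toReal) * ∫ x, f x ∂μ +
      Real.log (μ (Metric.closedBall 0 r)).toReal ≤ 2 * r * ∫ x, ‖fderiv ℝ f x‖ ∂μ)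
    {K L a : ℝ} (hK : 0 < K) (hK' : ∀ x, |deriv S2psi x| ≤ K) (hL : 0 < L) (ha : 3 ≤ a)
    (htail : ∀ r : ℝ, 2 * L * a ≤ r → μ (Metric.closedBall 0 r)ᶜ ≤
      ENNReal.ofReal (Real.exp (-(r / L))))
    {g : F → ℝ} (hg : ContDiff ℝ 1 g) (hgs : μ {x | g x ≠ 0} ≤ ENNReal.ofReal (Real.exp (-a)))
    {t : ℝ} (ht : 0 < t) :
    (2 * t) ^ 2 * (μ {x | 2 * t < |g x|}).toReal ≤
      128 * K * L * (∫ x, {x | t < |g x|}.indicator (fun x => |g x| * ‖fderiv ℝ g x‖) x ∂μ -
        ∫ x, {x | 2 * t < |g x|}.indicator (fun x => |g x| * ‖fderiv ℝ g x‖) x ∂μ) +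
      1 / 5 * (t ^ 2 * (μ {x | t < |g x|}).toReal) := by
  have hgc : Continuous g := hg.continuous
  have hdc : Continuous (fun x => ‖fderiv ℝ g x‖) := (hg.continuous_fderiv (by norm_num)).norm
  have hHc : Continuous (fun x => |g x| * ‖fderiv ℝ g x‖) := hgc.abs.mul hdc
  have hHi := S2_integrable μ hR hHc
  have hm : ∀ s : ℝ, MeasurableSet {x | s < |g x|} := fun s =>
    (isOpen_lt continuous_const hgc.abs).measurableSet
  have hHind : ∀ s : ℝ, Integrable
      ({x | s < |g x|}.indicator (fun x => |g x| * ‖fderiv ℝ g x‖)) μ :=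
    fun s => hHi.indicator (hm s)
  set J : ℝ := ∫ x, {x | t < |g x|}.indicator (fun x => |g x| * ‖fderiv ℝ g x‖) x ∂μ -
        ∫ x, {x | 2 * t < |g x|}.indicator (fun x => |g x| * ‖fderiv ℝ g x‖) x ∂μ with hJ
  have hJ' : J = ∫ x, ({x | t < |g x|}.indicator (fun x => |g x| * ‖fderiv ℝ g x‖) x -
      {x | 2 * t < |g x|}.indicator (fun x => |g x| * ‖fderiv ℝ g x‖) x) ∂μ := by
    rw [hJ, integral_sub (hHind t) (hHind (2 * t))]
  have hJ0 : 0 ≤ J := by
    rw [hJ']
    refine integral_nonneg fun x => ?_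
    simp only [Pi.zero_apply, sub_nonneg]
    refine Set.indicator_le_indicator_of_subset (fun y hy => ?_) (fun y => by positivity) x
    simp only [mem_ofPred_eq] at hy ⊢
    linarith
  set m1 : ℝ := (μ {x | t < |g x|}).toReal with hm1
  set m0 : ℝ := (μ {x | 2 * t < |g x|}).toReal with hm0
  have hm10 : 0 ≤ m1 := ENNReal.toReal_nonneg
  have hsub : ∀ s : ℝ, 0 < s → (μ {x | s < |g x|}).toReal ≤ Real.exp (-a) := by
    intro s hs
    have h1 : μ {x | s < |g x|} ≤ ENNReal.ofReal (Real.exp (-a)) := by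
      refine (measure_mono fun x hx => ?_).trans hgs
      simp only [mem_ofPred_eq] at hx ⊢
      intro h0
      rw [h0, abs_zero] at hx
      linarith
    exact ENNReal.toReal_le_of_le_ofReal (Real.exp_pos _).le h1
  have he3 : Real.exp (-a) ≤ 1 / 20 := by
    have h1 : Real.exp (-a) ≤ Real.exp (-3) := Real.exp_le_exp.2 (by linarith)
    have h2 : (20 : ℝ) ≤ Real.exp 3 := by
      have h3 := Real.exp_one_gt_d9
      have h4 : Real.exp 3 = Real.exp 1 ^ 3 := by rw [← Real.exp_nat_mul]; norm_num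
      rw [h4]
      have h5 : (2.7182818283 : ℝ) ^ 3 ≤ Real.exp 1 ^ 3 := pow_le_pow_left₀ (by norm_num) h3.le 3
      have h6 : (20 : ℝ) ≤ (2.7182818283 : ℝ) ^ 3 := by norm_num
      linarith
    refine h1.trans ?_
    rw [Real.exp_neg, ← one_div]
    exact one_div_le_one_div_of_le (by norm_num) h2
  have hlog : ∀ s : ℝ, 0 < s → 0 < (μ {x | s < |g x|}).toReal →
      a ≤ Real.log (1 / (μ {x | s < |g x|}).toReal) := by
    intro s hs hpos
    rw [one_div, Real.log_inv]
    have h1 := Real.log_le_log hpos (hsub s hs)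
    rw [Real.log_exp] at h1
    linarith
  have h00 : 0 ≤ m0 := ENNReal.toReal_nonneg
  rcases h00.eq_or_lt with h0 | h0
  · rw [← h0, mul_zero]
    positivity
  have hm01 : m0 ≤ m1 := by
    refine ENNReal.toReal_mono (measure_ne_top _ _) (measure_mono fun x hx => ?_)
    simp only [mem_ofPred_eq] at hx ⊢
    linarith
  have hm1pos : 0 < m1 := h0.trans_le hm01
  have hl1 := hlog t ht hm1pos
  have hl0 := hlog (2 * t) (by linarith) h0
  rw [← hm1] at hl1
  rw [← hm0] at hl0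
  have hm0' : m0 ≤ 1 / 20 := (hsub (2 * t) (by linarith)).trans he3
  have hm1' : m1 ≤ 1 / 20 := (hsub t ht).trans he3
  -- the function
  have hfne : {x | 2 * t < |g x|} ⊆ {x | S2f g t x ≠ 0} := by
    intro x hx
    simp only [mem_ofPred_eq] at hx ⊢
    rw [S2f_one ht hx.le]
    exact one_ne_zero
  have hfne' : {x | S2f g t x ≠ 0} ⊆ {x | t < |g x|} := by
    intro x hx
    simp only [mem_ofPred_eq] at hx ⊢
    by_contra hcon
    exact hx (S2f_zero ht (not_lt.1 hcon))
  have hμf : μ {x | S2f g t x ≠ 0} ≠ 0 := by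
    intro h
    have : μ {x | 2 * t < |g x|} = 0 := measure_mono_null hfne h
    rw [hm0, this] at h0
    simp at h0
  set r : ℝ := 2 * L * Real.log (1 / m0) with hr
  have hrL : 2 * L * a ≤ r := mul_le_mul_of_nonneg_left hl0 (by positivity)
  have hr0 : 0 < r := lt_of_lt_of_le (by positivity) hrL
  have hball : (μ (Metric.closedBall 0 r)ᶜ).toReal ≤ m0 ^ 2 := by
    refine (ENNReal.toReal_le_of_le_ofReal (Real.exp_pos _).le (htail r hrL)).trans ?_
    have h1 : r / L = 2 * Real.log (1 / m0) := by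
      rw [hr]
      field_simp
    rw [h1, one_div, Real.log_inv, show -(2 * -Real.log m0) = Real.log m0 + Real.log m0 by ring,
      Real.exp_add, Real.exp_log h0]
    exact (pow_two m0).ge
  have hball' : 1 - m0 ^ 2 ≤ (μ (Metric.closedBall 0 r)).toReal := by
    have h1 := prob_compl_eq_one_sub (μ := μ)
      (Metric.isClosed_closedBall (x := (0 : F)) (ε := r)).measurableSet
    have h2 : (μ (Metric.closedBall 0 r)).toReal + (μ (Metric.closedBall 0 r)ᶜ).toReal = 1 := by
      have := measureReal_add_measureReal_compl (μ := μ)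
        (Metric.isClosed_closedBall (x := (0 : F)) (ε := r)).measurableSet
      rw [measureReal_def, measureReal_def, measureReal_def, measure_univ] at this
      simpa using this
    linarith
  have hm0sq : m0 ^ 2 ≤ 1 / 2 := by nlinarith
  have hballpos : 0 < (μ (Metric.closedBall 0 r)).toReal := by linarith
  have hballne : μ (Metric.closedBall 0 r) ≠ 0 := by
    intro h
    rw [h] at hballpos
    simp at hballpos
  have hlogball : -(2 * m0 ^ 2) ≤ Real.log (μ (Metric.closedBall 0 r)).toReal := by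
    have h1 := Real.log_le_log (by linarith : (0 : ℝ) < 1 - m0 ^ 2) hball'
    have h2 := Real.one_sub_inv_le_log_of_pos (by linarith : (0 : ℝ) < 1 - m0 ^ 2)
    have h3 : (1 - m0 ^ 2)⁻¹ ≤ 1 + 2 * m0 ^ 2 := by
      rw [inv_le_iff_one_le_mul₀ (by linarith)]
      nlinarith [sq_nonneg m0]
    linarith
  have hmain := hS1 (S2f g t) (S2f_contDiff hg t) (fun x => S2psi_nonneg _)
    (fun x => S2psi_le_one _) hμf r hr0 hballne
  -- lower bound of the integral
  have hfint : Integrable (S2f g t) μ := S2_integrable μ hR (S2f_contDiff hg t).continuous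
  have hfm0 : m0 ≤ ∫ x, S2f g t x ∂μ := by
    have h1 : m0 = ∫ x, {x | 2 * t < |g x|}.indicator (fun _ => (1 : ℝ)) x ∂μ := by
      rw [integral_indicator (hm _), setIntegral_const, smul_eq_mul, mul_one, measureReal_def]
    rw [h1]
    refine integral_mono ((integrable_const _).indicator (hm _)) hfint fun x => ?_
    by_cases hx : x ∈ {x | 2 * t < |g x|}
    · rw [Set.indicator_of_mem hx]
      rw [S2f_one ht (le_of_lt hx)]
    · rw [Set.indicator_of_notMem hx]
      exact S2psi_nonneg _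
  have hlogf : Real.log (1 / m1) ≤ Real.log (1 / (μ {x | S2f g t x ≠ 0}).toReal) := by
    have h1 : 0 < (μ {x | S2f g t x ≠ 0}).toReal :=
      ENNReal.toReal_pos hμf (measure_ne_top _ _)
    have h2 : (μ {x | S2f g t x ≠ 0}).toReal ≤ m1 :=
      ENNReal.toReal_mono (measure_ne_top _ _) (measure_mono hfne')
    exact Real.log_le_log (by positivity) (one_div_le_one_div_of_le h1 h2)
  -- upper bound of the gradient
  have hgrad : ∫ x, ‖fderiv ℝ (S2f g t) x‖ ∂μ ≤ K * (2 / t ^ 2) * J := by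
    rw [hJ', ← integral_const_mul]
    refine integral_mono (S2_integrable μ hR
      ((S2f_contDiff hg t).continuous_fderiv (by norm_num)).norm)
      (((hHind t).sub (hHind (2 * t))).const_mul _) fun x => ?_
    show ‖fderiv ℝ (S2f g t) x‖ ≤ _
    rw [S2f_fderiv hg]
    have hHx : 0 ≤ |g x| * ‖fderiv ℝ g x‖ := by positivity
    by_cases h1 : |g x| ≤ t
    · have h2 : g x ^ 2 / t ^ 2 ≤ 1 := by
        rw [div_le_one (by positivity), ← sq_abs (g x)]
        exact pow_le_pow_left₀ (abs_nonneg _) h1 2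
      rw [S2psi_deriv_low h2, abs_zero, zero_mul]
      have h3 : x ∉ {x | t < |g x|} := by
        simp only [mem_ofPred_eq, not_lt]
        exact h1
      have h4 : x ∉ {x | 2 * t < |g x|} := by
        simp only [mem_ofPred_eq, not_lt]
        linarith
      simp only [Set.indicator_of_notMem h3, Set.indicator_of_notMem h4, sub_zero, mul_zero]
      exact le_rfl
    · push Not at h1
      by_cases h2 : 2 * t < |g x|
      · have h3 : 4 ≤ g x ^ 2 / t ^ 2 := by
          rw [le_div_iff₀ (by positivity), ← sq_abs (g x)]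
          have := pow_le_pow_left₀ (by positivity) h2.le 2
          linarith
        rw [S2psi_deriv_high h3, abs_zero, zero_mul]
        have h4 : x ∈ {x | t < |g x|} := h1
        have h5 : x ∈ {x | 2 * t < |g x|} := h2
        simp only [Set.indicator_of_mem h4, Set.indicator_of_mem h5, sub_self, mul_zero]
        exact le_rfl
      · have h4 : x ∈ {x | t < |g x|} := h1
        have h5 : x ∉ {x | 2 * t < |g x|} := h2
        simp only [Set.indicator_of_mem h4, Set.indicator_of_notMem h5, sub_zero]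
        rw [mul_assoc]
        exact mul_le_mul_of_nonneg_right (hK' _) (by positivity)
  -- conclusion
  have hf0 : 0 ≤ ∫ x, S2f g t x ∂μ := h0.le.trans hfm0
  have hA : Real.log (1 / m1) * m0 ≤
      Real.log (1 / (μ {x | S2f g t x ≠ 0}).toReal) * ∫ x, S2f g t x ∂μ :=
    mul_le_mul hlogf hfm0 h0.le (by linarith)
  have hB : 1 / 2 * Real.log (1 / m1) * m0 ≤ 2 * r * (K * (2 / t ^ 2) * J) := by
    have h1 : 2 * m0 ^ 2 ≤ 1 / 2 * Real.log (1 / m1) * m0 := by
      have : 2 * m0 ≤ 1 / 2 * Real.log (1 / m1) := by linarith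
      calc 2 * m0 ^ 2 = 2 * m0 * m0 := by ring
        _ ≤ _ := mul_le_mul_of_nonneg_right this h0.le
    have h2 : 2 * r * ∫ x, ‖fderiv ℝ (S2f g t) x‖ ∂μ ≤ 2 * r * (K * (2 / t ^ 2) * J) :=
      mul_le_mul_of_nonneg_left hgrad (by positivity)
    linarith
  by_cases hcase : Real.log (1 / m0) ≤ 2 * Real.log (1 / m1)
  · -- first case
    have hl1pos : 0 < Real.log (1 / m1) := by linarith
    have h1 : 2 * r * (K * (2 / t ^ 2) * J) ≤
        Real.log (1 / m1) * (16 * K * L * J / t ^ 2) := by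
      have h2 : r ≤ 4 * L * Real.log (1 / m1) := by
        rw [hr]
        nlinarith
      have h3 : 0 ≤ K * (2 / t ^ 2) * J := by positivity
      calc 2 * r * (K * (2 / t ^ 2) * J)
          ≤ 2 * (4 * L * Real.log (1 / m1)) * (K * (2 / t ^ 2) * J) :=
            mul_le_mul_of_nonneg_right (by linarith) h3
        _ = Real.log (1 / m1) * (16 * K * L * J / t ^ 2) := by ring
    have h2 : 1 / 2 * m0 ≤ 16 * K * L * J / t ^ 2 := by
      have h3 : Real.log (1 / m1) * (1 / 2 * m0) ≤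
          Real.log (1 / m1) * (16 * K * L * J / t ^ 2) := by
        calc Real.log (1 / m1) * (1 / 2 * m0) = 1 / 2 * Real.log (1 / m1) * m0 := by ring
          _ ≤ _ := hB.trans h1
      exact le_of_mul_le_mul_left h3 hl1pos
    rw [le_div_iff₀ (by positivity)] at h2
    have h3 : 0 ≤ t ^ 2 * m1 := by positivity
    nlinarith
  · -- second case
    push Not at hcase
    have h1 : m0 ≤ m1 ^ 2 := by
      have h2 : Real.log m0 ≤ Real.log (m1 ^ 2) := by
        rw [Real.log_pow]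
        rw [one_div, one_div, Real.log_inv, Real.log_inv] at hcase
        push_cast
        linarith
      exact (Real.log_le_log_iff h0 (by positivity)).1 h2
    have h2 : m0 ≤ 1 / 20 * m1 := by
      refine h1.trans ?_
      rw [pow_two]
      exact mul_le_mul_of_nonneg_right hm1' hm10
    have h3 : 0 ≤ 128 * K * L * J := by positivity
    have h4 : (2 * t) ^ 2 * m0 ≤ (2 * t) ^ 2 * (1 / 20 * m1) :=
      mul_le_mul_of_nonneg_left h2 (by positivity)
    calc (2 * t) ^ 2 * m0 ≤ (2 * t) ^ 2 * (1 / 20 * m1) := h4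
      _ = 1 / 5 * (t ^ 2 * m1) := by ring
      _ ≤ _ := by linarith

theorem S2_sum (μ : Measure F) [IsProbabilityMeasure μ]
    (hR : ∃ R, μ (Metric.closedBall 0 R)ᶜ = 0)
    (hS1 : ∀ f : F → ℝ, ContDiff ℝ 1 f → (∀ x, 0 ≤ f x) → (∀ x, f x ≤ 1) →
      μ {x | f x ≠ 0} ≠ 0 → ∀ r : ℝ, 0 < r → μ (Metric.closedBall 0 r) ≠ 0 →
      Real.log (1 / (μ {x | f x ≠ 0}).toReal) * ∫ x, f x ∂μ +
      Real.log (μ (Metric.closedBall 0 r)).toReal ≤ 2 * r * ∫ x, ‖fderiv ℝ f x‖ ∂μ)
    {K L a : ℝ} (hK : 0 < K) (hK' : ∀ x, |deriv S2psi x| ≤ K) (hL : 0 < L) (ha : 3 ≤ a)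
    (htail : ∀ r : ℝ, 2 * L * a ≤ r → μ (Metric.closedBall 0 r)ᶜ ≤
      ENNReal.ofReal (Real.exp (-(r / L))))
    {g : F → ℝ} (hg : ContDiff ℝ 1 g)
    (hgs : μ {x | g x ≠ 0} ≤ ENNReal.ofReal (Real.exp (-a))) :
    ∫ x, g x ^ 2 ∂μ ≤ 640 * K * L * ∫ x, |g x| * ‖fderiv ℝ g x‖ ∂μ := by
  have hgc : Continuous g := hg.continuous
  have hdc : Continuous (fun x => ‖fderiv ℝ g x‖) := (hg.continuous_fderiv (by norm_num)).norm
  have hHc : Continuous (fun x => |g x| * ‖fderiv ℝ g x‖) := hgc.abs.mul hdc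
  have hHi := S2_integrable μ hR hHc
  have hm : ∀ s : ℝ, MeasurableSet {x | s < |g x|} := fun s =>
    (isOpen_lt continuous_const hgc.abs).measurableSet
  have hHind : ∀ s : ℝ, Integrable
      ({x | s < |g x|}.indicator (fun x => |g x| * ‖fderiv ℝ g x‖)) μ :=
    fun s => hHi.indicator (hm s)
  obtain ⟨G, hG0, hG⟩ : ∃ G : ℝ, 0 < G ∧ ∀ᵐ x ∂μ, |g x| ≤ G := by
    obtain ⟨R, hR⟩ := hR
    obtain ⟨G, hG⟩ := (isCompact_closedBall (0 : F) R).exists_bound_of_continuousOn
      hgc.continuousOn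
    refine ⟨max G 1, lt_max_of_lt_right one_pos, ?_⟩
    have h1 : ∀ᵐ x ∂μ, x ∈ Metric.closedBall (0 : F) R := by
      rw [← compl_mem_ae_iff, compl_compl] at hR
      exact hR
    filter_upwards [h1] with x hx
    exact (hG x hx).trans (le_max_left _ _)
  set t : ℕ → ℝ := fun i => G / 2 ^ i with ht
  have ht0 : ∀ i, 0 < t i := fun i => by
    simp only [ht]
    positivity
  have ht2 : ∀ i, 2 * t (i + 1) = t i := fun i => by
    simp only [ht]
    rw [pow_succ]
    field_simp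
  set m : ℕ → ℝ := fun i => (μ {x | t i < |g x|}).toReal with hmd
  set u : ℕ → ℝ := fun i => t i ^ 2 * m i with hu
  set h : ℕ → ℝ := fun i =>
    ∫ x, {x | t i < |g x|}.indicator (fun x => |g x| * ‖fderiv ℝ g x‖) x ∂μ with hh
  set P : ℝ := ∫ x, |g x| * ‖fderiv ℝ g x‖ ∂μ with hP
  have hm1 : ∀ i, m i ≤ 1 := fun i => by
    have := ENNReal.toReal_mono ENNReal.one_ne_top (prob_le_one (μ := μ) (s := {x | t i < |g x|}))
    simpa using this
  have hm0 : ∀ i, 0 ≤ m i := fun i => ENNReal.toReal_nonneg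
  have hu1 : ∀ i, u i ≤ t i ^ 2 := fun i =>
    mul_le_of_le_one_right (by positivity) (hm1 i)
  have hu0 : ∀ i, 0 ≤ u i := fun i => mul_nonneg (by positivity) (hm0 i)
  have hstep : ∀ i, u i ≤ 128 * K * L * (h (i + 1) - h i) + 1 / 5 * u (i + 1) := by
    intro i
    have := S2_key μ hR hS1 hK hK' hL ha htail hg hgs (ht0 (i + 1))
    rw [ht2 i] at this
    exact this
  have hh0 : 0 ≤ h 0 := integral_nonneg fun x => Set.indicator_nonneg (fun y _ => by positivity) x
  have hhP : ∀ N, h N ≤ P := fun N => integral_mono (hHind _) hHi fun x =>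
    Set.indicator_le_self' (fun y _ => by positivity) x
  have hP0 : 0 ≤ P := integral_nonneg fun x => by positivity
  have hsum : ∀ N, ∑ i ∈ Finset.range N, u i ≤ 160 * K * L * P + u N / 4 := by
    intro N
    have h1 := Finset.sum_le_sum (s := Finset.range N) fun i _ => hstep i
    rw [Finset.sum_add_distrib, ← Finset.mul_sum, ← Finset.mul_sum, Finset.sum_range_sub] at h1
    have h2 : ∑ i ∈ Finset.range N, u (i + 1) = ∑ i ∈ Finset.range N, u i + u N - u 0 := by
      rw [← Finset.sum_range_succ, Finset.sum_range_succ']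
      ring
    rw [h2] at h1
    have h3 : 128 * K * L * (h N - h 0) ≤ 128 * K * L * P :=
      mul_le_mul_of_nonneg_left (by linarith [hhP N]) (by positivity)
    have h4 := hu0 0
    nlinarith
  have hpt : ∀ N x, |g x| ≤ G → g x ^ 2 ≤ t N ^ 2 +
      ∑ i ∈ Finset.range N, t i ^ 2 * {x | t (i + 1) < |g x|}.indicator (fun _ => (1 : ℝ)) x := by
    intro N x hx
    induction N with
    | zero =>
      have h1 : t 0 = G := by simp [ht]
      rw [Finset.sum_range_zero, add_zero, h1, ← sq_abs (g x)]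
      exact pow_le_pow_left₀ (abs_nonneg _) hx 2
    | succ N ih =>
      rw [Finset.sum_range_succ]
      have hnn : 0 ≤ ∑ i ∈ Finset.range N,
          t i ^ 2 * {x | t (i + 1) < |g x|}.indicator (fun _ => (1 : ℝ)) x :=
        Finset.sum_nonneg fun i _ => mul_nonneg (by positivity)
          (Set.indicator_nonneg (fun _ _ => zero_le_one) x)
      by_cases hlt : t (N + 1) < |g x|
      · have h2 : x ∈ {x | t (N + 1) < |g x|} := hlt
        rw [Set.indicator_of_mem h2, mul_one]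
        have h3 : 0 ≤ t (N + 1) ^ 2 := by positivity
        linarith
      · push Not at hlt
        have h3 : g x ^ 2 ≤ t (N + 1) ^ 2 := by
          rw [← sq_abs (g x)]
          exact pow_le_pow_left₀ (abs_nonneg _) hlt 2
        have h4 : 0 ≤ t N ^ 2 * {x | t (N + 1) < |g x|}.indicator (fun _ => (1 : ℝ)) x :=
          mul_nonneg (by positivity) (Set.indicator_nonneg (fun _ _ => zero_le_one) x)
        linarith
  have hint : ∀ N, ∫ x, g x ^ 2 ∂μ ≤ t N ^ 2 + 4 * ∑ i ∈ Finset.range N, u (i + 1) := by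
    intro N
    have hi1 : ∀ i ∈ Finset.range N, Integrable (fun x =>
        t i ^ 2 * {x | t (i + 1) < |g x|}.indicator (fun _ => (1 : ℝ)) x) μ := fun i _ =>
      (((integrable_const (1 : ℝ)).indicator (hm _)).const_mul _)
    have h1 : ∫ x, g x ^ 2 ∂μ ≤ ∫ x, (t N ^ 2 + ∑ i ∈ Finset.range N,
        t i ^ 2 * {x | t (i + 1) < |g x|}.indicator (fun _ => (1 : ℝ)) x) ∂μ := by
      refine integral_mono_ae (S2_integrable μ hR (hgc.pow 2))
        ((integrable_const _).add (integrable_finsetSum _ hi1)) ?_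
      filter_upwards [hG] with x hx
      exact hpt N x hx
    refine h1.trans (le_of_eq ?_)
    rw [integral_add (integrable_const _) (integrable_finsetSum _ hi1), integral_const,
      integral_finsetSum _ hi1, measureReal_def, measure_univ, ENNReal.toReal_one, one_smul,
      Finset.mul_sum]
    congr 1
    refine Finset.sum_congr rfl fun i _ => ?_
    rw [integral_const_mul, integral_indicator (hm _), setIntegral_const, smul_eq_mul, mul_one,
      measureReal_def]
    show t i ^ 2 * m (i + 1) = 4 * (t (i + 1) ^ 2 * m (i + 1))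
    rw [← ht2 i]
    ring
  have hfin : ∀ N, ∫ x, g x ^ 2 ∂μ ≤ 640 * K * L * P + 6 * t N ^ 2 := by
    intro N
    have h1 := hint N
    have h2 : ∑ i ∈ Finset.range N, u (i + 1) = ∑ i ∈ Finset.range N, u i + u N - u 0 := by
      rw [← Finset.sum_range_succ, Finset.sum_range_succ']
      ring
    rw [h2] at h1
    have h3 := hsum N
    have h4 := hu1 N
    have h5 := hu0 0
    linarith
  have hlim : Filter.Tendsto (fun N => 640 * K * L * P + 6 * t N ^ 2) Filter.atTop
      (nhds (640 * K * L * P + 6 * 0 ^ 2)) := by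
    have h1 : Filter.Tendsto t Filter.atTop (nhds 0) := by
      have h2 := tendsto_pow_atTop_nhds_zero_of_lt_one (by norm_num : (0 : ℝ) ≤ 1 / 2)
        (by norm_num)
      have h3 := h2.const_mul G
      rw [mul_zero] at h3
      refine h3.congr fun N => ?_
      simp only [ht]
      rw [one_div, inv_pow, div_eq_mul_inv]
    exact tendsto_const_nhds.add ((h1.pow 2).const_mul 6)
  have hfinal := ge_of_tendsto' hlim hfin
  simpa using hfinal

theorem S2_main (μ : Measure F) [IsProbabilityMeasure μ]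
    (hR : ∃ R, μ (Metric.closedBall 0 R)ᶜ = 0) {g : F → ℝ} (hg : ContDiff ℝ 1 g) {c : ℝ}
    (h : ∫ x, g x ^ 2 ∂μ ≤ c * ∫ x, |g x| * ‖fderiv ℝ g x‖ ∂μ) :
    ∫ x, g x ^ 2 ∂μ ≤ c ^ 2 * ∫ x, ‖fderiv ℝ g x‖ ^ 2 ∂μ := by
  have hgc : Continuous g := hg.continuous
  have hdc : Continuous (fun x => ‖fderiv ℝ g x‖) := (hg.continuous_fderiv (by norm_num)).norm
  have h1 : 0 ≤ ∫ x, (|g x| - c * ‖fderiv ℝ g x‖) ^ 2 ∂μ := integral_nonneg fun x => sq_nonneg _
  have h2 : ∫ x, (|g x| - c * ‖fderiv ℝ g x‖) ^ 2 ∂μ =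
      ∫ x, g x ^ 2 ∂μ - 2 * c * ∫ x, |g x| * ‖fderiv ℝ g x‖ ∂μ +
        c ^ 2 * ∫ x, ‖fderiv ℝ g x‖ ^ 2 ∂μ := by
    rw [← integral_const_mul, ← integral_const_mul, ← integral_sub, ← integral_add]
    · refine integral_congr_ae (Filter.Eventually.of_forall fun x => ?_)
      show (|g x| - c * ‖fderiv ℝ g x‖) ^ 2 = g x ^ 2 - 2 * c * (|g x| * ‖fderiv ℝ g x‖) +
        c ^ 2 * ‖fderiv ℝ g x‖ ^ 2
      rw [← sq_abs (g x)]
      ring
    · exact S2_integrable μ hR ((hgc.pow 2).sub ((hgc.abs.mul hdc).const_mul _))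
    · exact S2_integrable μ hR ((hdc.pow 2).const_mul _)
    · exact S2_integrable μ hR (hgc.pow 2)
    · exact S2_integrable μ hR ((hgc.abs.mul hdc).const_mul _)
  rw [h2] at h1
  linarith

end

theorem small_l2 : ∃ C₀ : ℝ, 0 < C₀ ∧ ∀ {F : Type} [NormedAddCommGroup F]
    [InnerProductSpace ℝ F] [FiniteDimensional ℝ F] [MeasurableSpace F] [BorelSpace F]
    (μ : Measure F) (_ : μ univ = 1) (_ : ∃ R, μ (Metric.closedBall 0 R)ᶜ = 0)
    (_ : ∀ f : F → ℝ, ContDiff ℝ 1 f → (∀ x, 0 ≤ f x) → (∀ x, f x ≤ 1) →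
      μ {x | f x ≠ 0} ≠ 0 → ∀ r : ℝ, 0 < r → μ (Metric.closedBall 0 r) ≠ 0 →
      Real.log (1 / (μ {x | f x ≠ 0}).toReal) * ∫ x, f x ∂μ +
      Real.log (μ (Metric.closedBall 0 r)).toReal ≤ 2 * r * ∫ x, ‖fderiv ℝ f x‖ ∂μ)
    (L a : ℝ) (_ : 0 < L) (_ : 3 ≤ a)
    (_ : ∀ r : ℝ, 2 * L * a ≤ r → μ (Metric.closedBall 0 r)ᶜ ≤
      ENNReal.ofReal (Real.exp (-(r / L))))
    (g : F → ℝ) (_ : ContDiff ℝ 1 g) (_ : μ {x | g x ≠ 0} ≤ ENNReal.ofReal (Real.exp (-a))),
    ∫ x, g x ^ 2 ∂μ ≤ (C₀ * L) ^ 2 * ∫ x, ‖fderiv ℝ g x‖ ^ 2 ∂μ := by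
  obtain ⟨K, hK, hK'⟩ := S2psi_deriv_bdd
  refine ⟨640 * K, by positivity, ?_⟩
  intro F _ _ _ _ _ μ hμ hR hS1 L a hL ha htail g hg hgs
  have : IsProbabilityMeasure μ := ⟨hμ⟩
  exact S2_main μ hR hg (S2_sum μ hR hS1 hK hK' hL ha htail hg hgs)

end Pool.Agent.H212R2.KLS
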